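import Mathlib

/-!
# Power subgroups and powerfully embedded subgroups
-/

set_option autoImplicit false

namespace Pool.Agent.H40P

open Subgroup
open scoped commutatorElement

variable {G : Type*} [Group G]

/-- The subgroup generated by the `n`-th powers of the elements of `N`. -/
def powSub (N : Subgroup G) (n : ℕ) : Subgroup G := closure {x | ∃ y ∈ N, y ^ n = x}

lemma pow_mem_powSub {N : Subgroup G} {n : ℕ} {x : G} (hx : x ∈ N) : x ^ n ∈ powSub N n :=
  subset_closure ⟨x, hx, rfl⟩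

lemma powSub_le_iff {N K : Subgroup G} {n : ℕ} : powSub N n ≤ K ↔ ∀ x ∈ N, x ^ n ∈ K := by
  unfold powSub
  rw [closure_le]
  constructor
  · intro h x hx
    exact h ⟨x, hx, rfl⟩
  · rintro h _ ⟨x, hx, rfl⟩
    exact h x hx

lemma powSub_le (N : Subgroup G) (n : ℕ) : powSub N n ≤ N :=
  powSub_le_iff.2 fun _ hx => N.pow_mem hx n

lemma powSub_mono {N M : Subgroup G} (h : N ≤ M) (n : ℕ) : powSub N n ≤ powSub M n :=
  powSub_le_iff.2 fun _ hx => pow_mem_powSub (h hx)

lemma map_powSub {H : Type*} [Group H] (f : G →* H) (N : Subgroup G) (n : ℕ) :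
    (powSub N n).map f = powSub (N.map f) n := by
  apply le_antisymm
  · rw [map_le_iff_le_comap, powSub_le_iff]
    intro x hx
    rw [mem_comap, map_pow]
    exact pow_mem_powSub (mem_map_of_mem f hx)
  · rw [powSub_le_iff]
    rintro _ ⟨x, hx, rfl⟩
    rw [← map_pow]
    exact mem_map_of_mem f (pow_mem_powSub hx)

instance powSub_normal (N : Subgroup G) [hN : N.Normal] (n : ℕ) : (powSub N n).Normal := by
  constructor
  intro x hx g
  have h : powSub N n ≤ (powSub N n).comap (MulAut.conj g).toMonoidHom := by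
    rw [powSub_le_iff]
    intro y hy
    rw [mem_comap, map_pow]
    exact pow_mem_powSub (hN.conj_mem y hy g)
  exact h hx

lemma powSub_powSub_le (N : Subgroup G) (a b : ℕ) : powSub N (a * b) ≤ powSub (powSub N a) b := by
  rw [powSub_le_iff]
  intro x hx
  rw [pow_mul]
  exact pow_mem_powSub (pow_mem_powSub hx)

/-- In a nilpotent group, `L ≤ K [L, G]` implies `L ≤ K`. -/
lemma nilp_descent [Group.IsNilpotent G] {L K : Subgroup G} [K.Normal]
    (h : L ≤ K ⊔ ⁅L, (⊤ : Subgroup G)⁆) : L ≤ K := by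
  set f := QuotientGroup.mk' K with hf
  have hsurj : Function.Surjective f := QuotientGroup.mk'_surjective K
  have h1 : L.map f ≤ ⁅L.map f, (⊤ : Subgroup (G ⧸ K))⁆ := by
    have h2 := map_mono (f := f) h
    rw [Subgroup.map_sup, map_commutator, map_top_of_surjective f hsurj] at h2
    have h3 : K.map f = ⊥ := by
      rw [Subgroup.map_eq_bot_iff, hf, QuotientGroup.ker_mk']
    rwa [h3, bot_sup_eq] at h2
  obtain ⟨n, hn⟩ := Subgroup.nilpotent_iff_lowerCentralSeries.1
    (inferInstance : Group.IsNilpotent (G ⧸ K))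
  have h4 : ∀ i, L.map f ≤ (⊤ : Subgroup (G ⧸ K)).lowerCentralSeries i := by
    intro i
    induction i with
    | zero => exact le_top
    | succ i ih => exact h1.trans (commutator_mono ih le_rfl)
  have h5 := h4 n
  rw [hn, le_bot_iff, Subgroup.map_eq_bot_iff, hf, QuotientGroup.ker_mk'] at h5
  exact h5

/-- Powers of products in class two, with `y x = d x y`. -/
lemma mul_pow_class_two {x y d : G} (hd : y * x = d * x * y) (hdx : Commute d x)
    (hdy : Commute d y) (n : ℕ) : (x * y) ^ n = d ^ (n * (n - 1) / 2) * x ^ n * y ^ n := by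
  have h1 : ∀ n : ℕ, y ^ n * x = d ^ n * x * y ^ n := by
    intro n
    induction n with
    | zero => simp
    | succ n ih =>
      have hc : y * d ^ n = d ^ n * y := (hdy.pow_left n).eq.symm
      calc y ^ (n + 1) * x = y * (y ^ n * x) := by rw [pow_succ']; group
        _ = y * (d ^ n * x * y ^ n) := by rw [ih]
        _ = (y * d ^ n) * x * y ^ n := by group
        _ = d ^ n * (y * x) * y ^ n := by rw [hc]; group
        _ = d ^ n * (d * x * y) * y ^ n := by rw [hd]
        _ = d ^ (n + 1) * x * y ^ (n + 1) := by rw [pow_succ d, pow_succ' y]; group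
  induction n with
  | zero => simp
  | succ n ih =>
    have hexp : (n + 1) * (n + 1 - 1) / 2 = n * (n - 1) / 2 + n := by
      have := Finset.sum_range_id_mul_two n
      have h2 := Finset.sum_range_id_mul_two (n + 1)
      rw [Finset.sum_range_succ] at h2
      omega
    have hc : x ^ n * d ^ n = d ^ n * x ^ n := (hdx.pow_pow n n).eq.symm
    calc (x * y) ^ (n + 1) = (x * y) ^ n * (x * y) := pow_succ _ _
      _ = d ^ (n * (n - 1) / 2) * x ^ n * (y ^ n * x) * y := by rw [ih]; group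
      _ = d ^ (n * (n - 1) / 2) * x ^ n * (d ^ n * x * y ^ n) * y := by rw [h1]
      _ = d ^ (n * (n - 1) / 2) * (x ^ n * d ^ n) * x * y ^ n * y := by group
      _ = d ^ (n * (n - 1) / 2) * (d ^ n * x ^ n) * x * y ^ n * y := by rw [hc]
      _ = d ^ ((n + 1) * (n + 1 - 1) / 2) * x ^ (n + 1) * y ^ (n + 1) := by
        rw [hexp, pow_add, pow_succ x, pow_succ y]; group

lemma odd_exp {p : ℕ} (hp : Odd p) : p ∣ p * (p - 1) / 2 := by
  obtain ⟨k, rfl⟩ := hp
  refine ⟨k, ?_⟩
  rw [show 2 * k + 1 - 1 = 2 * k by omega, show (2 * k + 1) * (2 * k) = ((2 * k + 1) * k) * 2 by ring,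
    Nat.mul_div_cancel _ (by norm_num)]

/-- The main computation for odd exponents. -/
lemma core_odd {p : ℕ} (hp : Odd p) {N : Subgroup G}
    (h1 : ∀ x ∈ N, ∀ g : G, ⁅x, g⁆ ∈ powSub N p)
    (h2 : ∀ m ∈ powSub N p, m ^ p = 1)
    (h3 : ∀ m ∈ powSub N p, ∀ g h : G, Commute ⁅m, g⁆ h)
    (h4 : ∀ m ∈ powSub N p, ∀ g : G, ⁅m, g⁆ ∈ powSub N p)
    {x : G} (hx : x ∈ N) (g : G) : Commute g (x ^ p) := by
  set c := ⁅x⁻¹, g⁆ with hc
  have hcM : c ∈ powSub N p := h1 _ (N.inv_mem hx) g
  set d := ⁅c, x⁆ with hd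
  have hdp : d ^ p = 1 := h2 _ (h4 c hcM x)
  have e1 : c * x = d * x * c := by rw [hd, commutatorElement_def]; group
  have e2 := mul_pow_class_two e1 (h3 c hcM x x) (h3 c hcM x c) p
  have e3 : d ^ (p * (p - 1) / 2) = 1 := by
    obtain ⟨k, hk⟩ := odd_exp hp
    rw [hk, pow_mul, hdp, one_pow]
  rw [e3, h2 c hcM, one_mul, mul_one] at e2
  have e4 : g * x * g⁻¹ = x * c := by rw [hc, commutatorElement_def]; group
  have e5 : g * x ^ p * g⁻¹ = x ^ p := by
    rw [← conj_pow, e4, e2]
  rw [Commute, SemiconjBy]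
  calc g * x ^ p = (g * x ^ p * g⁻¹) * g := by group
    _ = x ^ p * g := by rw [e5]

/-- The main computation for exponent two. -/
lemma core_two {N : Subgroup G}
    (h1 : ∀ x ∈ N, ∀ g : G, ⁅x, g⁆ ∈ powSub N 4)
    (h2 : ∀ m ∈ powSub N 2, m ^ 4 = 1)
    (h3 : ∀ m ∈ powSub N 2, ∀ g h : G, Commute ⁅m, g⁆ h)
    (h4 : ∀ m ∈ powSub N 2, ∀ g : G, ⁅m, g⁆ ∈ powSub N 2)
    {x : G} (hx : x ∈ N) (g : G) : Commute g (x ^ 2) := by
  -- squares of elements of `M` commute with each other
  have key : ∀ m ∈ powSub N 2, ∀ h : G, ∀ k : ℕ, h * m ^ k = (⁅m, h⁆⁻¹) ^ k * m ^ k * h := by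
    intro m hm h k
    have e1 : h * m * h⁻¹ = ⁅m, h⁆⁻¹ * m := by rw [commutatorElement_def]; group
    have e2 : Commute (⁅m, h⁆⁻¹) m := (h3 m hm h m).inv_left
    have e3 : h * m ^ k * h⁻¹ = (⁅m, h⁆⁻¹) ^ k * m ^ k := by
      rw [← conj_pow, e1, e2.mul_pow]
    calc h * m ^ k = (h * m ^ k * h⁻¹) * h := by group
      _ = _ := by rw [e3]
  have hS : powSub N 4 ≤ powSub (powSub N 2) 2 := powSub_powSub_le N 2 2
  have hcomm : ∀ z ∈ powSub N 2, ∀ w ∈ powSub N 2, Commute (z ^ 2) (w ^ 2) := by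
    intro z hz w hw
    -- `[z, w ^ 2] = [z, w] ^ 2`
    have e1 : z * w ^ 2 = (⁅w, z⁆⁻¹) ^ 2 * w ^ 2 * z := key w hw z 2
    have e2 : Commute (⁅w, z⁆⁻¹) (w ^ 2) := (h3 w hw z _).inv_left
    have e2' : Commute (⁅w, z⁆⁻¹) z := (h3 w hw z _).inv_left
    have e3 : (⁅w, z⁆⁻¹) ^ 4 = 1 := by rw [inv_pow, h2 _ (h4 w hw z), inv_one]
    set u := (⁅w, z⁆⁻¹) ^ 2 with hu
    have hu2 : u * u = 1 := by rw [hu, ← pow_add]; exact e3
    have hcu : Commute u z := e2'.pow_left 2
    rw [Commute, SemiconjBy]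
    calc z ^ 2 * w ^ 2 = z * (z * w ^ 2) := by rw [pow_two z]; group
      _ = z * (u * w ^ 2 * z) := by rw [e1]
      _ = (z * u) * w ^ 2 * z := by group
      _ = u * (z * w ^ 2) * z := by rw [← hcu.eq]; group
      _ = u * (u * w ^ 2 * z) * z := by rw [e1]
      _ = (u * u) * w ^ 2 * z ^ 2 := by rw [pow_two z]; group
      _ = w ^ 2 * z ^ 2 := by rw [hu2, one_mul]
  -- elements of `M ^ 2` commute with each other
  have hcomm2 : ∀ s ∈ powSub (powSub N 2) 2, ∀ t ∈ powSub (powSub N 2) 2, Commute s t := by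
    have hc1 : ∀ z ∈ powSub N 2, ∀ t ∈ powSub (powSub N 2) 2, Commute (z ^ 2) t := by
      intro z hz t ht
      have : powSub (powSub N 2) 2 ≤ centralizer {z ^ 2} := by
        rw [powSub_le_iff]
        intro w hw
        rw [mem_centralizer_singleton_iff]
        exact (hcomm w hw z hz).eq
      exact (mem_centralizer_singleton_iff.1 (this ht)).symm
    intro s hs t ht
    have : powSub (powSub N 2) 2 ≤ centralizer {t} := by
      rw [powSub_le_iff]
      intro w hw
      rw [mem_centralizer_singleton_iff]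
      exact (hc1 w hw t ht).eq
    exact mem_centralizer_singleton_iff.1 (this hs)
  have hsq : ∀ s ∈ powSub (powSub N 2) 2, s ^ 2 = 1 := by
    intro s hs
    unfold powSub at hs
    induction hs using closure_induction with
    | mem a ha =>
      obtain ⟨y, hy, rfl⟩ := ha
      rw [← pow_mul]
      exact h2 y hy
    | one => exact one_pow 2
    | mul a b ha hb iha ihb => rw [(hcomm2 a ha b hb).mul_pow, iha, ihb, one_mul]
    | inv a ha iha => rw [inv_pow, iha, inv_one]
  -- squares of elements of `M` are central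
  have hcen : ∀ z ∈ powSub N 2, ∀ h : G, Commute h (z ^ 2) := by
    intro z hz h
    have e1 := key z hz h 2
    have e2 : ⁅z, h⁆ ∈ powSub (powSub N 2) 2 := hS (h1 z (powSub_le N 2 hz) h)
    rw [inv_pow, hsq _ e2, inv_one, one_mul] at e1
    exact e1
  have hcen2 : ∀ s ∈ powSub (powSub N 2) 2, ∀ h : G, Commute s h := by
    intro s hs h
    have : powSub (powSub N 2) 2 ≤ centralizer {h} := by
      rw [powSub_le_iff]
      intro w hw
      rw [mem_centralizer_singleton_iff]
      exact (hcen w hw h).eq.symm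
    exact mem_centralizer_singleton_iff.1 (this hs)
  have hc : ⁅x⁻¹, g⁆ ∈ powSub (powSub N 2) 2 := hS (h1 _ (N.inv_mem hx) g)
  set c := ⁅x⁻¹, g⁆ with hcdef
  have e4 : g * x * g⁻¹ = x * c := by rw [hcdef, commutatorElement_def]; group
  have e5 : g * x ^ 2 * g⁻¹ = x ^ 2 := by
    rw [← conj_pow, e4, ((hcen2 c hc x).symm).mul_pow, hsq c hc, mul_one]
  rw [Commute, SemiconjBy]
  calc g * x ^ 2 = (g * x ^ 2 * g⁻¹) * g := by group
    _ = x ^ 2 * g := by rw [e5]

/-- The exponent in the definition of powerful groups. -/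
def qexp (p : ℕ) : ℕ := if p = 2 then 4 else p

/-- If `N` is powerfully embedded, so is `N ^ p`. -/
theorem embedded_step [Group.IsNilpotent G] {p : ℕ} (hp : p.Prime) {N : Subgroup G} [N.Normal]
    (h : ⁅N, (⊤ : Subgroup G)⁆ ≤ powSub N (qexp p)) :
    ⁅powSub N p, (⊤ : Subgroup G)⁆ ≤ powSub (powSub N p) (qexp p) := by
  set M := powSub N p with hM
  set K := powSub M (qexp p) with hK
  refine nilp_descent ?_
  set L := ⁅M, (⊤ : Subgroup G)⁆ with hL
  set J := K ⊔ ⁅L, (⊤ : Subgroup G)⁆ with hJ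
  have : M.Normal := powSub_normal N p
  have : K.Normal := powSub_normal M _
  have : L.Normal := inferInstance
  have : J.Normal := inferInstance
  set f := QuotientGroup.mk' J with hf
  have hsurj : Function.Surjective f := QuotientGroup.mk'_surjective J
  have hker : ∀ a, f a = 1 ↔ a ∈ J := fun a => QuotientGroup.eq_one_iff a
  have hNm : ∀ y ∈ N.map f, ∃ x ∈ N, f x = y := fun y hy => hy
  have hMm : M.map f = powSub (N.map f) p := map_powSub f N p
  -- hypotheses of the core lemmas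
  have a1 : ∀ x ∈ N.map f, ∀ g : G ⧸ J, ⁅x, g⁆ ∈ powSub (N.map f) (qexp p) := by
    rintro _ ⟨x, hx, rfl⟩ g
    obtain ⟨g, rfl⟩ := hsurj g
    rw [← map_commutatorElement, ← map_powSub]
    exact mem_map_of_mem f (h (commutator_mem_commutator hx (mem_top g)))
  have a2 : ∀ m ∈ powSub (N.map f) p, m ^ (qexp p) = 1 := by
    rw [← hMm]
    rintro _ ⟨m, hm, rfl⟩
    rw [← map_pow, hker]
    exact le_sup_left (a := K) (pow_mem_powSub hm)
  have a3 : ∀ m ∈ powSub (N.map f) p, ∀ g h : G ⧸ J, Commute ⁅m, g⁆ h := by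
    rw [← hMm]
    rintro _ ⟨m, hm, rfl⟩ g h
    obtain ⟨g, rfl⟩ := hsurj g
    obtain ⟨h, rfl⟩ := hsurj h
    rw [← map_commutatorElement, ← commutatorElement_eq_one_iff_commute,
      ← map_commutatorElement, hker]
    exact le_sup_right (a := K)
      (commutator_mem_commutator (commutator_mem_commutator hm (mem_top g)) (mem_top h))
  have a4 : ∀ m ∈ powSub (N.map f) p, ∀ g : G ⧸ J, ⁅m, g⁆ ∈ powSub (N.map f) p := by
    rw [← hMm]
    rintro _ ⟨m, hm, rfl⟩ g
    obtain ⟨g, rfl⟩ := hsurj g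
    rw [← map_commutatorElement]
    exact mem_map_of_mem f ((commutator_le_left M ⊤) (commutator_mem_commutator hm (mem_top g)))
  have hcen : ∀ x ∈ N.map f, ∀ g : G ⧸ J, Commute g (x ^ p) := by
    intro x hx g
    by_cases h2 : p = 2
    · subst h2
      have hq : qexp 2 = 4 := rfl
      rw [hq] at a1 a2
      exact core_two a1 a2 a3 a4 hx g
    · have hq : qexp p = p := by simp [qexp, h2]
      rw [hq] at a1 a2
      exact core_odd (hp.odd_of_ne_two h2) a1 a2 a3 a4 hx g
  have hcen2 : M.map f ≤ center (G ⧸ J) := by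
    rw [hMm, powSub_le_iff]
    intro x hx
    rw [mem_center_iff]
    intro g
    exact (hcen x hx g).eq
  rw [hL, commutator_le]
  intro m hm g _
  rw [← hker, map_commutatorElement, commutatorElement_eq_one_iff_commute]
  exact ((mem_center_iff.1 (hcen2 (mem_map_of_mem f hm))) (f g)).symm

end Pool.Agent.H40P
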