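import Mathlib
import Pool.Agent.H40P.Basic

/-!
# Powerful finite `p`-groups: the chain of power subgroups and the class number
-/

set_option autoImplicit false

namespace Pool.Agent.H40P

open Subgroup
open scoped commutatorElement

/-- Powerful groups (for the prime `p`): commutators are products of `p`-th powers
(of fourth powers if `p = 2`). -/
def IsPowerful (p : ℕ) (G : Type*) [Group G] : Prop :=
  ∀ x y : G, ⁅x, y⁆ ∈ Subgroup.closure {z : G | ∃ w : G, w ^ (if p = 2 then 4 else p) = z}

variable {G : Type*} [Group G]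

/-- The chain of power subgroups. -/
def P (p : ℕ) (G : Type*) [Group G] : ℕ → Subgroup G
  | 0 => ⊤
  | i + 1 => powSub (P p G i) p

instance P_normal (p : ℕ) (i : ℕ) : (P p G i).Normal := by
  induction i with
  | zero => exact (inferInstance : (⊤ : Subgroup G).Normal)
  | succ i ih => exact powSub_normal _ _

lemma P_succ_le (p i : ℕ) : P p G (i + 1) ≤ P p G i := powSub_le _ _

lemma P_pow {p i : ℕ} {x : G} (hx : x ∈ P p G i) : x ^ p ∈ P p G (i + 1) := pow_mem_powSub hx

lemma P_pow_pow (p : ℕ) (x : G) (i j : ℕ) (hx : x ∈ P p G i) : x ^ (p ^ j) ∈ P p G (i + j) := by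
  induction j with
  | zero => simpa using hx
  | succ j ih =>
    rw [pow_succ, pow_mul]
    exact P_pow ih

lemma P_emb [Group.IsNilpotent G] {p : ℕ} (hp : p.Prime) (h : IsPowerful p G) (i : ℕ) :
    ⁅P p G i, (⊤ : Subgroup G)⁆ ≤ powSub (P p G i) (qexp p) := by
  induction i with
  | zero =>
    rw [commutator_le]
    intro x _ y _
    refine closure_mono ?_ (h x y)
    rintro _ ⟨w, rfl⟩
    exact ⟨w, mem_top w, rfl⟩
  | succ i ih => exact embedded_step hp ih

lemma P_three [Group.IsNilpotent G] {p : ℕ} (hp : p.Prime) (h : IsPowerful p G) (i : ℕ)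
    {x y : G} (hx : x ∈ P p G i) (hy : y ∈ P p G i) :
    QuotientGroup.mk' (P p G (i + 2)) ((x * y) ^ p) =
      QuotientGroup.mk' (P p G (i + 2)) (x ^ p) * QuotientGroup.mk' (P p G (i + 2)) (y ^ p) := by
  set f := QuotientGroup.mk' (P p G (i + 2)) with hf
  have hker : ∀ a, f a = 1 ↔ a ∈ P p G (i + 2) := fun a => QuotientGroup.eq_one_iff a
  have e1 : f y * f x = f ⁅y, x⁆ * f x * f y := by
    rw [← map_mul, ← map_mul, ← map_mul, commutatorElement_def]
    congr 1
    group
  have h0 := P_emb hp h i (commutator_mem_commutator hy (mem_top x))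
  have h00 : ∀ g : G, ⁅⁅y, x⁆, g⁆ ∈ P p G (i + 2) ∧ f ⁅y, x⁆ ^ (p * (p - 1) / 2) = 1 := by
    intro g
    by_cases h2 : p = 2
    · subst h2
      have h3 : ⁅y, x⁆ ∈ P 2 G (i + 2) := powSub_powSub_le (P 2 G i) 2 2 h0
      refine ⟨?_, ?_⟩
      · exact commutator_le_left (P 2 G (i + 2)) ⊤ (commutator_mem_commutator h3 (mem_top g))
      · rw [(hker _).2 h3, one_pow]
    · have hq : qexp p = p := by simp [qexp, h2]
      rw [hq] at h0
      have h3 : ⁅y, x⁆ ∈ P p G (i + 1) := h0
      have h4 := P_emb hp h (i + 1) (commutator_mem_commutator h3 (mem_top g))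
      rw [hq] at h4
      refine ⟨h4, ?_⟩
      obtain ⟨k, hk⟩ := odd_exp (hp.odd_of_ne_two h2)
      rw [hk, pow_mul, ← map_pow, (hker _).2 (P_pow h3), one_pow]
  have h5 : ∀ g : G, Commute (f ⁅y, x⁆) (f g) := by
    intro g
    rw [← commutatorElement_eq_one_iff_commute, ← map_commutatorElement, hker]
    exact (h00 g).1
  have h6 := mul_pow_class_two e1 (h5 x) (h5 y) p
  rw [(h00 1).2, one_mul] at h6
  rw [map_pow, map_mul, h6, map_pow, map_pow]

lemma P_hom [Group.IsNilpotent G] {p : ℕ} (hp : p.Prime) (h : IsPowerful p G) (j : ℕ) (x y : G) :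
    QuotientGroup.mk' (P p G (j + 1)) ((x * y) ^ (p ^ j)) =
      QuotientGroup.mk' (P p G (j + 1)) (x ^ (p ^ j)) *
        QuotientGroup.mk' (P p G (j + 1)) (y ^ (p ^ j)) := by
  induction j with
  | zero => simp
  | succ j ih =>
    have hmem : ∀ w : G, w ^ (p ^ j) ∈ P p G j := by
      intro w
      have := P_pow_pow p w 0 j (mem_top w)
      rwa [zero_add] at this
    rw [← map_mul] at ih
    have ih' : (x ^ p ^ j * y ^ p ^ j)⁻¹ * (x * y) ^ p ^ j ∈ P p G (j + 1) :=
      QuotientGroup.eq.1 ih.symm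
    set z := (x ^ p ^ j * y ^ p ^ j)⁻¹ * (x * y) ^ p ^ j with hz
    have hzj : z ∈ P p G j := P_succ_le p j ih'
    have e1 : (x * y) ^ p ^ j = (x ^ p ^ j * y ^ p ^ j) * z := by rw [hz]; group
    have e2 : QuotientGroup.mk' (P p G (j + 2)) (z ^ p) = 1 :=
      (QuotientGroup.eq_one_iff _).2 (P_pow ih')
    have e3 := P_three hp h j (mul_mem (hmem x) (hmem y)) hzj
    have e4 := P_three hp h j (hmem x) (hmem y)
    rw [e2, mul_one, e4] at e3
    rw [pow_succ, pow_mul, pow_mul, pow_mul, e1]
    exact e3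

/-- The `p ^ j`-th power map. -/
def phi [Group.IsNilpotent G] {p : ℕ} (hp : p.Prime) (h : IsPowerful p G) (j : ℕ) :
    G →* G ⧸ P p G (j + 1) where
  toFun x := QuotientGroup.mk' (P p G (j + 1)) (x ^ (p ^ j))
  map_one' := by rw [one_pow, map_one]
  map_mul' x y := P_hom hp h j x y

lemma phi_apply [Group.IsNilpotent G] {p : ℕ} (hp : p.Prime) (h : IsPowerful p G) (j : ℕ) (x : G) :
    phi hp h j x = QuotientGroup.mk' (P p G (j + 1)) (x ^ (p ^ j)) := rfl

lemma P_surj [Group.IsNilpotent G] {p : ℕ} (hp : p.Prime) (h : IsPowerful p G) (j : ℕ) :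
    P p G j ≤ ((phi hp h j).range).comap (QuotientGroup.mk' (P p G (j + 1))) := by
  induction j with
  | zero =>
    intro x _
    rw [mem_comap]
    exact ⟨x, by rw [phi_apply, pow_zero, pow_one]⟩
  | succ j ih =>
    refine powSub_le_iff.2 ?_
    intro y hy
    obtain ⟨x, hx⟩ := ih hy
    rw [phi_apply] at hx
    have hx' : (x ^ p ^ j)⁻¹ * y ∈ P p G (j + 1) := QuotientGroup.eq.1 hx
    set z := (x ^ p ^ j)⁻¹ * y with hz
    have hmem : x ^ (p ^ j) ∈ P p G j := by
      have := P_pow_pow p x 0 j (mem_top x)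
      rwa [zero_add] at this
    have hzj : z ∈ P p G j := P_succ_le p j hx'
    have e1 : y = x ^ p ^ j * z := by rw [hz]; group
    have e3 := P_three hp h j hmem hzj
    have e2 : QuotientGroup.mk' (P p G (j + 2)) (z ^ p) = 1 :=
      (QuotientGroup.eq_one_iff _).2 (P_pow hx')
    rw [e2, mul_one, ← e1] at e3
    rw [mem_comap]
    refine ⟨x, ?_⟩
    rw [phi_apply, pow_succ, pow_mul]
    exact e3.symm

lemma P_one_le_ker [Group.IsNilpotent G] {p : ℕ} (hp : p.Prime) (h : IsPowerful p G) (j : ℕ) :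
    P p G 1 ≤ (phi hp h j).ker := by
  intro x hx
  rw [MonoidHom.mem_ker, phi_apply]
  have := P_pow_pow p x 1 j hx
  rw [add_comm 1 j] at this
  exact (QuotientGroup.eq_one_iff _).2 this

lemma P_relIndex [Finite G] [Group.IsNilpotent G] {p : ℕ} (hp : p.Prime) (h : IsPowerful p G)
    (j : ℕ) : (P p G (j + 1)).relIndex (P p G j) ≤ (P p G 1).index := by
  have e1 : (P p G (j + 1)).relIndex (P p G j) =
      Nat.card ((P p G j).map (QuotientGroup.mk' (P p G (j + 1)))) := by
    rw [← relIndex_ker, QuotientGroup.ker_mk']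
  have e2 : (P p G j).map (QuotientGroup.mk' (P p G (j + 1))) ≤ (phi hp h j).range :=
    map_le_iff_le_comap.2 (P_surj hp h j)
  have e3 : Nat.card (phi hp h j).range ≤ (P p G 1).index := by
    rw [← index_ker]
    exact Nat.le_of_dvd (Nat.pos_of_ne_zero index_ne_zero_of_finite)
      (index_dvd_of_le (P_one_le_ker hp h j))
  rw [e1]
  exact (Nat.card_le_card_of_injective _ (inclusion_injective e2)).trans e3

lemma P_index [Finite G] [Group.IsNilpotent G] {p : ℕ} (hp : p.Prime) (h : IsPowerful p G)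
    (j : ℕ) : (P p G j).index ≤ (P p G 1).index ^ j := by
  induction j with
  | zero => exact (index_top (G := G)).le
  | succ j ih =>
    rw [← relIndex_mul_index (P_succ_le p j), pow_succ, mul_comm]
    exact Nat.mul_le_mul ih (P_relIndex hp h j)

/-- Finite `p`-groups are not generated by `p`-th powers. -/
lemma powSub_top_ne {H : Type*} [Group H] [Finite H] {p : ℕ} (hp : p.Prime) (hH : IsPGroup p H)
    [Nontrivial H] : powSub (⊤ : Subgroup H) p ≠ ⊤ := by
  have := Fact.mk hp
  obtain ⟨a, ha⟩ := IsPGroup.iff_card.1 hH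
  have ha0 : a ≠ 0 := by
    rintro rfl
    rw [pow_zero] at ha
    have := Finite.one_lt_card (α := H)
    omega
  obtain ⟨b, rfl⟩ := Nat.exists_eq_succ_of_ne_zero ha0
  obtain ⟨K, hK⟩ := Sylow.exists_subgroup_card_pow_prime (G := H) p
    (n := b) (by rw [ha]; exact pow_dvd_pow p (Nat.le_succ b))
  have hKi : K.index = p := by
    have h1 := K.card_mul_index
    rw [hK, ha, Nat.succ_eq_add_one, pow_succ] at h1
    exact Nat.eq_of_mul_eq_mul_left (pow_pos hp.pos b) h1
  have hKn : K.Normal := by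
    apply normal_of_index_eq_minFac_card
    rw [hKi, ha, hp.pow_minFac (Nat.succ_ne_zero b)]
  have hle : powSub (⊤ : Subgroup H) p ≤ K := by
    rw [powSub_le_iff]
    intro x _
    rw [← QuotientGroup.eq_one_iff]
    have h2 : ((x : H ⧸ K)) ^ Nat.card (H ⧸ K) = 1 := pow_card_eq_one'
    rw [← index_eq_card, hKi] at h2
    exact h2
  intro htop
  rw [htop, top_le_iff] at hle
  rw [hle, index_top] at hKi
  exact hp.one_lt.ne hKi

lemma powSub_lt [Finite G] {p : ℕ} (hp : p.Prime) (hG : IsPGroup p G) {N : Subgroup G}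
    (hN : N ≠ ⊥) : powSub N p < N := by
  refine lt_of_le_of_ne (powSub_le N p) fun heq => ?_
  have := (nontrivial_iff_ne_bot N).2 hN
  apply powSub_top_ne hp (hG.to_subgroup N)
  have h1 : (powSub (⊤ : Subgroup N) p).map N.subtype = N := by
    rw [map_powSub, ← MonoidHom.range_eq_map, range_subtype, heq]
  apply map_injective N.subtype_injective
  rw [h1, ← MonoidHom.range_eq_map, range_subtype]

lemma P_eventually [Finite G] {p : ℕ} (hp : p.Prime) (hG : IsPGroup p G) :
    ∃ e, P p G e = ⊥ := by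
  by_contra hcon
  push Not at hcon
  have h1 : ∀ j, 2 ^ j * Nat.card (P p G j) ≤ Nat.card G := by
    intro j
    induction j with
    | zero => rw [pow_zero, one_mul]; exact card_le_card_group _
    | succ j ih =>
      have h2 : P p G (j + 1) < P p G j := powSub_lt hp hG (hcon j)
      have h3 : Nat.card (P p G (j + 1)) * 2 ≤ Nat.card (P p G j) := by
        obtain ⟨c, hc⟩ := card_dvd_of_le h2.le
        rw [hc]
        refine Nat.mul_le_mul_left _ ?_
        by_contra hc2
        have : c = 0 ∨ c = 1 := by omega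
        rcases this with rfl | rfl
        · rw [mul_zero] at hc
          exact Nat.card_pos.ne' hc
        · rw [mul_one] at hc
          exact h2.ne (eq_of_le_of_card_ge h2.le hc.le)
      calc 2 ^ (j + 1) * Nat.card (P p G (j + 1)) =
          2 ^ j * (Nat.card (P p G (j + 1)) * 2) := by ring
        _ ≤ 2 ^ j * Nat.card (P p G j) := Nat.mul_le_mul_left _ h3
        _ ≤ Nat.card G := ih
  have h4 := h1 (Nat.card G)
  have h5 : 0 < Nat.card (P p G (Nat.card G)) := Nat.card_pos
  have h6 : Nat.card G < 2 ^ Nat.card G := Nat.lt_two_pow_self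
  nlinarith

/-- `k(G) ≥ p ^ e / 2` and `|G| ≤ |G : G ^ p| ^ e`. -/
theorem powerful_exp [Finite G] {p : ℕ} (hp : p.Prime) (hG : IsPGroup p G)
    (h : IsPowerful p G) :
    ∃ e, Nat.card G ≤ (powSub (⊤ : Subgroup G) p).index ^ e ∧
      p ^ e ≤ 2 * Nat.card (ConjClasses G) := by
  have := Fact.mk hp
  have hnil : Group.IsNilpotent G := hG.isNilpotent
  classical
  set e := Nat.find (P_eventually hp hG) with he
  have hbot : P p G e = ⊥ := Nat.find_spec (P_eventually hp hG)
  have hmin : ∀ j < e, P p G j ≠ ⊥ := fun j hj => Nat.find_min (P_eventually hp hG) hj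
  refine ⟨e, ?_, ?_⟩
  · have h1 := P_index hp h e
    rw [hbot, index_bot] at h1
    exact h1
  · have hk0 : 0 < Nat.card (ConjClasses G) := by
      have : Finite (ConjClasses G) := Quotient.finite _
      exact Nat.card_pos
    rcases Nat.eq_zero_or_pos e with he0 | he0
    · rw [he0, pow_zero]; omega
    obtain ⟨j, hj⟩ := Nat.exists_eq_succ_of_ne_zero he0.ne'
    rw [hj, Nat.succ_eq_add_one] at hbot ⊢
    have hPj : P p G j ≠ ⊥ := hmin j (by omega)
    set K := (phi hp h j).ker with hK
    have hmemK : ∀ x, x ∈ K ↔ x ^ (p ^ j) = 1 := by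
      intro x
      rw [hK, MonoidHom.mem_ker, phi_apply]
      have : QuotientGroup.mk' (P p G (j + 1)) (x ^ p ^ j) = 1 ↔ x ^ p ^ j ∈ P p G (j + 1) :=
        QuotientGroup.eq_one_iff _
      rw [this, hbot, mem_bot]
    have hKne : K ≠ ⊤ := by
      intro htop
      apply hPj
      rw [eq_bot_iff]
      intro y hy
      obtain ⟨x, hx⟩ := P_surj hp h j hy
      have hx1 : phi hp h j x = 1 := by
        rw [← MonoidHom.mem_ker, ← hK, htop]; exact mem_top x
      rw [hx1] at hx
      have : y ∈ P p G (j + 1) := (QuotientGroup.eq_one_iff _).1 hx.symm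
      rwa [hbot] at this
    have hKc : 2 * Nat.card K ≤ Nat.card G := by
      rw [← K.card_mul_index, mul_comm]
      refine Nat.mul_le_mul_left _ ?_
      have h1 : K.index ≠ 0 := index_ne_zero_of_finite
      have h2 : K.index ≠ 1 := fun h => hKne (index_eq_one.1 h)
      omega
    have hord : ∀ x, x ∉ K → orderOf x = p ^ (j + 1) := by
      intro x hx
      refine orderOf_eq_prime_pow (fun h1 => hx ((hmemK x).2 h1)) ?_
      have := P_pow_pow p x 0 (j + 1) (mem_top x)
      rw [zero_add, hbot, mem_bot] at this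
      exact this
    -- count commuting pairs
    have hcount : Nat.card {x : G // x ∉ K} * p ^ (j + 1) ≤
        Nat.card { q : G × G // Commute q.1 q.2 } := by
      have e1 : Nat.card ({x : G // x ∉ K} × Fin (p ^ (j + 1))) =
          Nat.card {x : G // x ∉ K} * p ^ (j + 1) := by
        rw [Nat.card_prod, Nat.card_fin]
      rw [← e1]
      refine Nat.card_le_card_of_injective
        (fun q => ⟨((q.1 : G), (q.1 : G) ^ (q.2 : ℕ)), Commute.self_pow _ _⟩) ?_
      rintro ⟨⟨x, hx⟩, i⟩ ⟨⟨y, hy⟩, k⟩ hxy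
      have h1 := congrArg Subtype.val hxy
      simp only [Prod.mk.injEq] at h1
      obtain ⟨rfl, h2⟩ := h1
      have h3 : (i : ℕ) = k := by
        apply pow_injOn_Iio_orderOf (x := x) _ _ h2
        · rw [hord x hx]; exact i.2
        · rw [hord x hx]; exact k.2
      rw [Prod.mk.injEq]
      exact ⟨rfl, Fin.ext h3⟩
    have hcompl : Nat.card {x : G // x ∉ K} + Nat.card K = Nat.card G := by
      have e1 : Nat.card G = Nat.card {x : G // x ∈ K} + Nat.card {x : G // x ∉ K} := by
        rw [← Nat.card_sum]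
        exact Nat.card_congr (Equiv.sumCompl (fun x => x ∈ K)).symm
      rw [e1, add_comm]
    rw [card_comm_eq_card_conjClasses_mul_card] at hcount
    have hG0 : 0 < Nat.card G := Nat.card_pos
    have h7 : Nat.card G ≤ 2 * Nat.card {x : G // x ∉ K} := by omega
    have h8 : Nat.card G * p ^ (j + 1) ≤ Nat.card G * (2 * Nat.card (ConjClasses G)) := by
      calc Nat.card G * p ^ (j + 1) ≤ 2 * Nat.card {x : G // x ∉ K} * p ^ (j + 1) :=
            Nat.mul_le_mul_right _ h7
        _ = 2 * (Nat.card {x : G // x ∉ K} * p ^ (j + 1)) := by ring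
        _ ≤ 2 * (Nat.card (ConjClasses G) * Nat.card G) := Nat.mul_le_mul_left _ hcount
        _ = Nat.card G * (2 * Nat.card (ConjClasses G)) := by ring
    exact Nat.le_of_mul_le_mul_left h8 hG0

/-- A commutative quotient has at most `k(G)` elements. -/
lemma index_le_conj [Finite G] (K : Subgroup G) [K.Normal] (hK : ∀ x y : G, ⁅x, y⁆ ∈ K) :
    K.index ≤ Nat.card (ConjClasses G) := by
  have : Finite (ConjClasses G) := Quotient.finite _
  have h1 : Nat.card (ConjClasses (G ⧸ K)) ≤ Nat.card (ConjClasses G) :=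
    Nat.card_le_card_of_surjective (ConjClasses.map (QuotientGroup.mk' K))
      (ConjClasses.map_surjective (QuotientGroup.mk'_surjective K))
  have hcomm : ∀ a b : G ⧸ K, Commute a b := by
    intro a b
    obtain ⟨x, rfl⟩ := QuotientGroup.mk'_surjective K a
    obtain ⟨y, rfl⟩ := QuotientGroup.mk'_surjective K b
    rw [← commutatorElement_eq_one_iff_commute, ← map_commutatorElement]
    exact (QuotientGroup.eq_one_iff _).2 (hK x y)
  have h2 := card_comm_eq_card_conjClasses_mul_card (G ⧸ K)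
  have h3 : Nat.card { q : (G ⧸ K) × (G ⧸ K) // Commute q.1 q.2 } =
      Nat.card (G ⧸ K) * Nat.card (G ⧸ K) := by
    rw [← Nat.card_prod]
    exact Nat.card_congr (Equiv.subtypeUnivEquiv fun q => hcomm q.1 q.2)
  rw [h3] at h2
  rw [index_eq_card, Nat.eq_of_mul_eq_mul_right Nat.card_pos h2]
  exact h1

/-- Powerful groups have many classes. -/
theorem powerful_bound [Finite G] {p m : ℕ} (hp : p.Prime) (hm : Nat.card G = p ^ m)
    (h : IsPowerful p G) :
    ∃ d e, m ≤ d * e ∧ p ^ d ≤ Nat.card (ConjClasses G) ∧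
      p ^ e ≤ 2 * Nat.card (ConjClasses G) := by
  obtain ⟨e, he1, he2⟩ := powerful_exp hp (IsPGroup.of_card hm) h
  set K := powSub (⊤ : Subgroup G) p with hK
  obtain ⟨d, _, hd⟩ : ∃ d ≤ m, K.index = p ^ d := by
    refine (Nat.dvd_prime_pow hp).1 ?_
    rw [← hm]
    exact index_dvd_card K
  refine ⟨d, e, ?_, ?_, he2⟩
  · rw [hd, hm, ← pow_mul] at he1
    exact (Nat.pow_le_pow_iff_right hp.one_lt).1 he1
  · rw [← hd]
    refine index_le_conj K ?_
    intro x y
    have h1 : powSub (⊤ : Subgroup G) (qexp p) ≤ K := by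
      rw [powSub_le_iff]
      intro w _
      unfold qexp
      split_ifs with h2
      · have h3 : w ^ 4 = (w ^ 2) ^ 2 := by rw [← pow_mul]
        rw [h3]
        exact K.pow_mem (by rw [hK, h2]; exact pow_mem_powSub (mem_top w)) 2
      · exact pow_mem_powSub (mem_top w)
    apply h1
    refine closure_mono ?_ (h x y)
    rintro _ ⟨w, rfl⟩
    exact ⟨w, mem_top w, rfl⟩

end Pool.Agent.H40P
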