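import Mathlib
import Pool.Agent.H40P.Chain

/-!
# Normal sections of finite `p`-groups
-/

set_option autoImplicit false

namespace Pool.Agent.H40P

open Subgroup
open scoped commutatorElement

variable {G : Type*} [Group G]

/-- `N` is generated by at most `r` elements. -/
def Gen (r : ℕ) (N : Subgroup G) : Prop :=
  ∃ S : Finset G, S.card ≤ r ∧ Subgroup.closure (S : Set G) = N

/-- Nontrivial normal subgroups of nilpotent groups contain central elements. -/
lemma exists_central [Finite G] [Group.IsNilpotent G] : ∀ (n : ℕ) (N : Subgroup G), N.Normal →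
    N ≠ ⊥ → Nat.card N ≤ n → ∃ z ∈ N, z ≠ 1 ∧ z ∈ center G := by
  intro n
  induction n with
  | zero =>
    intro N _ _ hc
    have : 0 < Nat.card N := Nat.card_pos
    omega
  | succ n ih =>
    intro N hN hne hc
    by_cases h : ⁅N, (⊤ : Subgroup G)⁆ = ⊥
    · have h1 : N ≤ center G := commutator_top_right_eq_bot_iff_le_center.1 h
      obtain ⟨⟨z, hz⟩, hz1⟩ := N.ne_bot_iff_exists_ne_one.1 hne
      exact ⟨z, hz, fun h => hz1 (Subtype.ext h), h1 hz⟩
    · have hle : ⁅N, (⊤ : Subgroup G)⁆ ≤ N := commutator_le_left N ⊤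
      have hlt : ⁅N, (⊤ : Subgroup G)⁆ < N := by
        refine lt_of_le_of_ne hle fun heq => hne ?_
        rw [eq_bot_iff]
        refine nilp_descent ?_
        rw [heq, bot_sup_eq]
      have hcard : Nat.card (⁅N, (⊤ : Subgroup G)⁆ : Subgroup G) ≤ n := by
        by_contra hcon
        push Not at hcon
        exact hlt.ne (eq_of_le_of_card_ge hle (by omega))
      obtain ⟨z, hz, hz1, hz2⟩ := ih _ inferInstance h hcard
      exact ⟨z, hle hz, hz1, hz2⟩

lemma relIndex_pow [Finite G] {p : ℕ} (hp : p.Prime) (hG : IsPGroup p G) (H K : Subgroup G) :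
    ∃ a, H.relIndex K = p ^ a := by
  have := Fact.mk hp
  obtain ⟨n, hn⟩ := IsPGroup.iff_card.1 hG
  obtain ⟨a, _, ha⟩ := (Nat.dvd_prime_pow hp (i := H.relIndex K) (m := n)).1 (by
    rw [← hn]
    exact (relIndex_dvd_card H K).trans (card_subgroup_dvd_card K))
  exact ⟨a, ha⟩

lemma relIndex_ge [Finite G] {p : ℕ} (hp : p.Prime) (hG : IsPGroup p G) {H K : Subgroup G}
    (h : ¬ K ≤ H) : p ≤ H.relIndex K := by
  obtain ⟨a, ha⟩ := relIndex_pow hp hG H K
  have ha0 : a ≠ 0 := by
    rintro rfl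
    rw [pow_zero] at ha
    exact h (relIndex_eq_one.1 ha)
  rw [ha]
  calc p = p ^ 1 := (pow_one p).symm
    _ ≤ p ^ a := Nat.pow_le_pow_right hp.pos (Nat.one_le_iff_ne_zero.2 ha0)

lemma relIndex_map (J : Subgroup G) [J.Normal] (H : Subgroup G) :
    J.relIndex H = Nat.card (H.map (QuotientGroup.mk' J)) := by
  rw [← relIndex_ker, QuotientGroup.ker_mk']

lemma map_comap_mk (J : Subgroup G) [J.Normal] (H : Subgroup (G ⧸ J)) :
    (H.comap (QuotientGroup.mk' J)).map (QuotientGroup.mk' J) = H :=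
  map_comap_eq_self_of_surjective (QuotientGroup.mk'_surjective J) H

lemma bot_p [Finite G] {p : ℕ} (hp : p.Prime) (hG : IsPGroup p G) {B A : Subgroup G}
    (hA : A.Normal) (hB : B.Normal) (hlt : B < A) :
    ∃ D : Subgroup G, D.Normal ∧ B ≤ D ∧ D ≤ A ∧ B.relIndex D = p := by
  have := Fact.mk hp
  set f := QuotientGroup.mk' B with hf
  have hsurj : Function.Surjective f := QuotientGroup.mk'_surjective B
  have hQ : IsPGroup p (G ⧸ B) := hG.to_quotient B
  have hnil : Group.IsNilpotent (G ⧸ B) := hQ.isNilpotent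
  have hAn : (A.map f).Normal := hA.map f hsurj
  have hAne : A.map f ≠ ⊥ := by
    intro h
    rw [Subgroup.map_eq_bot_iff, hf, QuotientGroup.ker_mk'] at h
    exact hlt.not_ge h
  obtain ⟨z, hz, hz1, hz2⟩ := exists_central (Nat.card (A.map f)) (A.map f) hAn hAne le_rfl
  -- a central element of order `p`
  have hS : IsPGroup p (A.map f ⊓ center (G ⧸ B) : Subgroup (G ⧸ B)) := hQ.to_subgroup _
  have hSc : p ∣ Nat.card (A.map f ⊓ center (G ⧸ B) : Subgroup (G ⧸ B)) := by
    rcases hS.card_eq_or_dvd with h | h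
    · exfalso
      have h2 : (A.map f ⊓ center (G ⧸ B) : Subgroup (G ⧸ B)) = ⊥ := eq_bot_of_card_eq _ h
      have h3 : z ∈ (A.map f ⊓ center (G ⧸ B) : Subgroup (G ⧸ B)) := ⟨hz, hz2⟩
      rw [h2, mem_bot] at h3
      exact hz1 h3
    · exact h
  obtain ⟨w', hw⟩ := exists_prime_orderOf_dvd_card' p hSc
  set w : G ⧸ B := (w' : G ⧸ B) with hwdef
  have hw1 : w ∈ A.map f := w'.2.1
  have hw2 : w ∈ center (G ⧸ B) := w'.2.2
  have hwo : orderOf w = p := by rw [hwdef, Subgroup.orderOf_coe, hw]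
  set E := zpowers w with hE
  have hEn : E.Normal := by
    constructor
    intro x hx g
    have hxc : x ∈ center (G ⧸ B) := (zpowers_le.2 hw2) hx
    have := mem_center_iff.1 hxc g
    rw [this, mul_assoc, mul_inv_cancel, mul_one]
    exact hx
  refine ⟨E.comap f, hEn.comap f, ?_, ?_, ?_⟩
  · intro b hb
    rw [mem_comap, (QuotientGroup.eq_one_iff b).2 hb |> fun h => (show f b = 1 from h)]
    exact one_mem _
  · have h1 : E ≤ A.map f := zpowers_le.2 hw1
    have h2 : E.comap f ≤ (A.map f).comap f := comap_mono h1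
    rw [comap_map_eq, hf, QuotientGroup.ker_mk', sup_eq_left.2 hlt.le] at h2
    exact h2
  · rw [relIndex_map, map_comap_mk, hE, Nat.card_zpowers, hwo]

lemma exists_mid [Finite G] {p : ℕ} (hp : p.Prime) (hG : IsPGroup p G) {B A : Subgroup G}
    (hA : A.Normal) (hB : B.Normal) (hle : B ≤ A) (k : ℕ) :
    ∃ D : Subgroup G, D.Normal ∧ B ≤ D ∧ D ≤ A ∧
      ((D = A ∧ B.relIndex D ≤ p ^ k) ∨ B.relIndex D = p ^ k) := by
  induction k with
  | zero =>
    exact ⟨B, hB, le_rfl, hle, Or.inr (by rw [pow_zero, relIndex_self])⟩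
  | succ k ih =>
    obtain ⟨D, hD, hBD, hDA, h | h⟩ := ih
    · refine ⟨D, hD, hBD, hDA, Or.inl ⟨h.1, h.2.trans ?_⟩⟩
      exact Nat.pow_le_pow_right hp.pos (Nat.le_succ k)
    · by_cases hEq : D = A
      · refine ⟨D, hD, hBD, hDA, Or.inl ⟨hEq, ?_⟩⟩
        rw [h]
        exact Nat.pow_le_pow_right hp.pos (Nat.le_succ k)
      · obtain ⟨D', hD', h1, h2, h3⟩ := bot_p hp hG hA hD (lt_of_le_of_ne hDA hEq)
        refine ⟨D', hD', hBD.trans h1, h2, Or.inr ?_⟩
        rw [← relIndex_mul_relIndex B D D' hBD h1, h, h3, pow_succ]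

lemma exists_between [Finite G] {p : ℕ} (hp : p.Prime) (hG : IsPGroup p G) {B A : Subgroup G}
    (hA : A.Normal) (hB : B.Normal) (hle : B ≤ A) {s t : ℕ} (h : B.relIndex A ≤ p ^ (s + t)) :
    ∃ D : Subgroup G, D.Normal ∧ B ≤ D ∧ D ≤ A ∧ B.relIndex D ≤ p ^ s ∧
      D.relIndex A ≤ p ^ t := by
  obtain ⟨D, hD, h1, h2, h3 | h3⟩ := exists_mid hp hG hA hB hle s
  · refine ⟨D, hD, h1, h2, h3.2, ?_⟩
    rw [h3.1, relIndex_self]
    exact Nat.one_le_pow _ _ hp.pos
  · refine ⟨D, hD, h1, h2, h3.le, ?_⟩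
    have h4 := relIndex_mul_relIndex B D A h1 h2
    rw [← h4, h3, pow_add] at h
    exact Nat.le_of_mul_le_mul_left h (pow_pos hp.pos s)

lemma top_p [Finite G] {p : ℕ} (hp : p.Prime) (hG : IsPGroup p G) {B A : Subgroup G}
    (hA : A.Normal) (hB : B.Normal) (hlt : B < A) :
    ∃ D : Subgroup G, D.Normal ∧ B ≤ D ∧ D ≤ A ∧ D.relIndex A = p := by
  obtain ⟨a, ha⟩ := relIndex_pow hp hG B A
  have ha0 : a ≠ 0 := by
    rintro rfl
    rw [pow_zero] at ha
    exact hlt.not_ge (relIndex_eq_one.1 ha)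
  obtain ⟨b, rfl⟩ := Nat.exists_eq_succ_of_ne_zero ha0
  obtain ⟨D, hD, h1, h2, h3 | h3⟩ := exists_mid hp hG hA hB hlt.le b
  · exfalso
    rw [h3.1, ha] at h3
    have := (Nat.pow_le_pow_iff_right hp.one_lt).1 h3.2
    omega
  · refine ⟨D, hD, h1, h2, ?_⟩
    have h4 := relIndex_mul_relIndex B D A h1 h2
    rw [ha, h3, Nat.succ_eq_add_one, pow_succ] at h4
    exact Nat.eq_of_mul_eq_mul_left (pow_pos hp.pos b) h4

/-! ### Elementary abelian groups with few generators -/

lemma closure_commute {T : Set G} (h : ∀ a ∈ T, ∀ b ∈ T, Commute a b) :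
    ∀ a ∈ closure T, ∀ b ∈ closure T, Commute a b := by
  have h1 : ∀ a ∈ T, ∀ b ∈ closure T, Commute a b := by
    intro a ha b hb
    have : closure T ≤ centralizer {a} := by
      rw [closure_le]
      intro c hc
      rw [SetLike.mem_coe, mem_centralizer_singleton_iff]
      exact (h c hc a ha).eq
    exact (mem_centralizer_singleton_iff.1 (this hb)).symm
  intro a ha b hb
  have : closure T ≤ centralizer {b} := by
    rw [closure_le]
    intro c hc
    rw [SetLike.mem_coe, mem_centralizer_singleton_iff]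
    exact (h1 c hc b hb).eq
  exact mem_centralizer_singleton_iff.1 (this ha)

lemma closure_pow_one {T : Set G} (h : ∀ a ∈ T, ∀ b ∈ T, Commute a b) {n : ℕ}
    (hn : ∀ a ∈ T, a ^ n = 1) : ∀ a ∈ closure T, a ^ n = 1 := by
  intro a ha
  induction ha using closure_induction with
  | mem a ha => exact hn a ha
  | one => exact one_pow n
  | mul a b ha hb iha ihb =>
    rw [(closure_commute h a ha b hb).mul_pow, iha, ihb, one_mul]
  | inv a ha iha => rw [inv_pow, iha, inv_one]

lemma card_closure_le [Finite G] {n : ℕ} (hn : 0 < n) (S : Finset G)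
    (hc : ∀ a ∈ S, ∀ b ∈ S, Commute a b) (hp : ∀ a ∈ S, a ^ n = 1) :
    Nat.card (closure (S : Set G)) ≤ n ^ S.card := by
  classical
  induction S using Finset.induction_on with
  | empty => simp
  | insert a S haS ih =>
    have hc' : ∀ b ∈ S, ∀ c ∈ S, Commute b c := fun b hb c hc'' =>
      hc b (Finset.mem_insert_of_mem hb) c (Finset.mem_insert_of_mem hc'')
    have ih' := ih hc' fun b hb => hp b (Finset.mem_insert_of_mem hb)
    have hac : ∀ c ∈ closure (S : Set G), Commute a c := by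
      intro c hc''
      have : closure (S : Set G) ≤ centralizer {a} := by
        rw [closure_le]
        intro d hd
        rw [SetLike.mem_coe, mem_centralizer_singleton_iff]
        exact (hc d (Finset.mem_insert_of_mem hd) a (Finset.mem_insert_self a S)).eq
      exact (mem_centralizer_singleton_iff.1 (this hc'')).symm
    have hap : a ^ n = 1 := hp a (Finset.mem_insert_self a S)
    -- every element is `a ^ i * c`
    let C : Subgroup G :=
      { carrier := {x | ∃ i : ℤ, ∃ c ∈ closure (S : Set G), x = a ^ i * c}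
        one_mem' := ⟨0, 1, one_mem _, by simp⟩
        mul_mem' := by
          rintro _ _ ⟨i, c, hc1, rfl⟩ ⟨j, d, hd1, rfl⟩
          refine ⟨i + j, c * d, mul_mem hc1 hd1, ?_⟩
          have h1 : c * a ^ j = a ^ j * c := ((hac c hc1).symm.zpow_right j).eq
          calc a ^ i * c * (a ^ j * d) = a ^ i * (c * a ^ j) * d := by group
            _ = a ^ (i + j) * (c * d) := by rw [h1, zpow_add]; group
        inv_mem' := by
          rintro _ ⟨i, c, hc1, rfl⟩
          refine ⟨-i, c⁻¹, inv_mem hc1, ?_⟩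
          have h1 : Commute c⁻¹ (a ^ (-i)) := ((hac c hc1).symm.inv_left).zpow_right (-i)
          rw [mul_inv_rev, ← zpow_neg]
          exact h1.eq }
    have hle : closure ((insert a S : Finset G) : Set G) ≤ C := by
      rw [closure_le]
      intro x hx
      rw [Finset.coe_insert, Set.mem_insert_iff] at hx
      rcases hx with rfl | hx
      · exact ⟨1, 1, one_mem _, by simp⟩
      · exact ⟨0, x, subset_closure hx, by simp⟩
    have hcard : Nat.card (closure ((insert a S : Finset G) : Set G)) ≤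
        Nat.card (Fin n × closure (S : Set G)) := by
      have h1 : ∀ x : closure ((insert a S : Finset G) : Set G), ∃ q : Fin n × closure (S : Set G),
          (x : G) = a ^ (q.1 : ℕ) * (q.2 : G) := by
        intro x
        obtain ⟨i, c, hc1, hx⟩ := hle x.2
        have h2 : 0 ≤ i % n := Int.emod_nonneg _ (by omega)
        have h3 : i % n < n := Int.emod_lt_of_pos _ (by omega)
        refine ⟨(⟨(i % n).toNat, by omega⟩, ⟨c, hc1⟩), ?_⟩
        rw [hx]
        congr 1
        change a ^ i = a ^ ((i % n).toNat)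
        rw [← zpow_natCast, Int.toNat_of_nonneg h2, Int.emod_def, zpow_sub, zpow_mul,
          zpow_natCast, hap, one_zpow, inv_one, mul_one]
      choose q hq using h1
      refine Nat.card_le_card_of_injective q ?_
      intro x y hxy
      exact Subtype.ext (by rw [hq x, hq y, hxy])
    rw [Nat.card_prod, Nat.card_fin] at hcard
    rw [Finset.card_insert_of_notMem haS, pow_succ, mul_comm]
    exact hcard.trans (Nat.mul_le_mul_left _ ih')

lemma card_map_le [Finite G] {H : Type*} [Group H] [Finite H] (f : G →* H) {n r : ℕ}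
    (hn : 0 < n) {N : Subgroup G} (hN : Gen r N)
    (hc : ∀ a ∈ N, ∀ b ∈ N, Commute (f a) (f b)) (hp : ∀ a ∈ N, f a ^ n = 1) :
    Nat.card (N.map f) ≤ n ^ r := by
  classical
  obtain ⟨S, hS, rfl⟩ := hN
  have h1 : (closure (S : Set G)).map f = closure ((S.image f : Finset H) : Set H) := by
    rw [MonoidHom.map_closure, Finset.coe_image]
  rw [h1]
  refine (card_closure_le hn (S.image f) ?_ ?_).trans ?_
  · intro a ha b hb
    obtain ⟨x, hx, rfl⟩ := Finset.mem_image.1 ha
    obtain ⟨y, hy, rfl⟩ := Finset.mem_image.1 hb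
    exact hc x (subset_closure hx) y (subset_closure hy)
  · intro a ha
    obtain ⟨x, hx, rfl⟩ := Finset.mem_image.1 ha
    exact hp x (subset_closure hx)
  · exact Nat.pow_le_pow_right hn (Finset.card_image_le.trans hS)

lemma elem_card [Finite G] {n r : ℕ} (hn : 0 < n) {N K : Subgroup G} [K.Normal] (hN : Gen r N)
    (hc : ∀ a ∈ N, ∀ b ∈ N, ⁅a, b⁆ ∈ K) (hp : ∀ a ∈ N, a ^ n ∈ K) :
    K.relIndex N ≤ n ^ r := by
  rw [relIndex_map]
  refine card_map_le (QuotientGroup.mk' K) hn hN ?_ ?_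
  · intro a ha b hb
    rw [← commutatorElement_eq_one_iff_commute, ← map_commutatorElement]
    exact (QuotientGroup.eq_one_iff _).2 (hc a ha b hb)
  · intro a ha
    rw [← map_pow]
    exact (QuotientGroup.eq_one_iff _).2 (hp a ha)

/-! ### The subgroups `V` -/

/-- Elementary abelian normal sections of order at most `p ^ s`. -/
def IsSec (p s : ℕ) (B A : Subgroup G) : Prop :=
  A.Normal ∧ B.Normal ∧ B ≤ A ∧ (∀ a ∈ A, ∀ b ∈ A, ⁅a, b⁆ ∈ B) ∧ (∀ a ∈ A, a ^ p ∈ B) ∧
    B.relIndex A ≤ p ^ s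

/-- The elements that act trivially on all elementary abelian normal sections of order at
most `p ^ s`. -/
def V (p s : ℕ) (G : Type*) [Group G] : Subgroup G where
  carrier := {g | ∀ A B : Subgroup G, IsSec p s B A → ∀ a ∈ A, ⁅g, a⁆ ∈ B}
  one_mem' := by
    intro A B _ a _
    rw [commutatorElement_one_left]
    exact one_mem _
  mul_mem' := by
    intro g h hg hh A B hS a ha
    have hB := hS.2.1
    have e : ⁅g * h, a⁆ = (g * ⁅h, a⁆ * g⁻¹) * ⁅g, a⁆ := by
      simp only [commutatorElement_def]; group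
    rw [e]
    exact mul_mem (hB.conj_mem _ (hh A B hS a ha) g) (hg A B hS a ha)
  inv_mem' := by
    intro g hg A B hS a ha
    have hB := hS.2.1
    have e : ⁅g⁻¹, a⁆ = g⁻¹ * (⁅g, a⁆)⁻¹ * (g⁻¹)⁻¹ := by
      simp only [commutatorElement_def]; group
    rw [e]
    exact hB.conj_mem _ (inv_mem (hg A B hS a ha)) g⁻¹

lemma mem_V {p s : ℕ} {g : G} :
    g ∈ V p s G ↔ ∀ A B : Subgroup G, IsSec p s B A → ∀ a ∈ A, ⁅g, a⁆ ∈ B := Iff.rfl

instance V_normal (p s : ℕ) : (V p s G).Normal := by
  constructor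
  intro g hg t
  rw [mem_V] at hg ⊢
  intro A B hS a ha
  have hA := hS.1
  have hB := hS.2.1
  have e : ⁅t * g * t⁻¹, a⁆ = t * ⁅g, t⁻¹ * a * (t⁻¹)⁻¹⁆ * t⁻¹ := by
    simp only [commutatorElement_def]; group
  rw [e]
  exact hB.conj_mem _ (hg A B hS _ (hA.conj_mem a ha t⁻¹)) t

lemma V_one [Finite G] {p : ℕ} (hp : p.Prime) (hG : IsPGroup p G) : V p 1 G = ⊤ := by
  have := Fact.mk hp
  have hnil : Group.IsNilpotent G := hG.isNilpotent
  rw [eq_top_iff]
  intro g _ A B hS a ha
  obtain ⟨hA, hB, hBA, _, _, hcard⟩ := hS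
  by_cases hle : A ≤ B
  · exact hle (commutator_le_right ⊤ A (commutator_mem_commutator (mem_top g) ha))
  set C := B ⊔ ⁅A, (⊤ : Subgroup G)⁆ with hC
  have hCA : C ≤ A := sup_le hBA (commutator_le_left A ⊤)
  have hnot : ¬ A ≤ C := fun h => hle (nilp_descent h)
  have h1 := relIndex_mul_relIndex B C A le_sup_left hCA
  have h2 := relIndex_ge hp hG hnot
  have h3 : B.relIndex C ≤ 1 := by
    rw [pow_one, ← h1] at hcard
    by_contra hcon
    push Not at hcon
    have : 2 * p ≤ B.relIndex C * C.relIndex A := Nat.mul_le_mul hcon h2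
    have := hp.pos
    omega
  have h4 : B.relIndex C = 1 := by
    have : B.relIndex C ≠ 0 := by
      intro h0
      have h00 := relIndex_dvd_card B C
      rw [h0] at h00
      exact Nat.card_pos.ne' (Nat.eq_zero_of_zero_dvd h00)
    omega
  have h5 : C ≤ B := relIndex_eq_one.1 h4
  have h6 : ⁅a, g⁆ ∈ B :=
    h5 (le_sup_right (a := B) (commutator_mem_commutator ha (mem_top g)))
  rw [← commutatorElement_inv]
  exact inv_mem h6

lemma V_step [Finite G] {p s : ℕ} (hp : p.Prime) (hG : IsPGroup p G) :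
    (∀ g ∈ V p s G, ∀ h ∈ V p s G, ⁅g, h⁆ ∈ V p (s + s) G) ∧
    (∀ g ∈ V p s G, g ^ p ∈ V p (s + s) G) := by
  have main : ∀ A B : Subgroup G, IsSec p (s + s) B A → ∃ D : Subgroup G,
      IsSec p s D A ∧ IsSec p s B D := by
    intro A B hS
    obtain ⟨hA, hB, hBA, h1, h2, h3⟩ := hS
    obtain ⟨D, hD, hBD, hDA, h4, h5⟩ := exists_between hp hG hA hB hBA h3
    exact ⟨D, ⟨hA, hD, hDA, fun a ha b hb => hBD (h1 a ha b hb), fun a ha => hBD (h2 a ha), h5⟩,
      ⟨hD, hB, hBD, fun a ha b hb => h1 a (hDA ha) b (hDA hb), fun a ha => h2 a (hDA ha), h4⟩⟩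
  constructor
  · intro g hg h hh A B hS
    obtain ⟨D, hDA, hBD⟩ := main A B hS
    obtain ⟨hA, hB, hBA, h1, h2, h3⟩ := hS
    set f := QuotientGroup.mk' B with hf
    have hker : ∀ x, f x = 1 ↔ x ∈ B := fun x => QuotientGroup.eq_one_iff x
    -- action of `g * h` and `h * g`
    have act : ∀ u ∈ V p s G, ∀ v ∈ V p s G, ∀ a ∈ A,
        f (u * v) * f a = f ⁅v, a⁆ * f ⁅u, a⁆ * f a * f (u * v) := by
      intro u hu v hv a ha
      have e1 : Commute (f u) (f ⁅v, a⁆) := by
        rw [← commutatorElement_eq_one_iff_commute, ← map_commutatorElement, hker]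
        exact hu D B hBD _ (hv A D hDA a ha)
      have e2 : f v * f a = f ⁅v, a⁆ * f a * f v := by
        rw [← map_mul, ← map_mul, ← map_mul, commutatorElement_def]; congr 1; group
      have e3 : f u * f a = f ⁅u, a⁆ * f a * f u := by
        rw [← map_mul, ← map_mul, ← map_mul, commutatorElement_def]; congr 1; group
      calc f (u * v) * f a = f u * (f v * f a) := by rw [map_mul]; group
        _ = (f u * f ⁅v, a⁆) * f a * f v := by rw [e2]; group
        _ = f ⁅v, a⁆ * (f u * f a) * f v := by rw [e1.eq]; group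
        _ = f ⁅v, a⁆ * f ⁅u, a⁆ * f a * (f u * f v) := by rw [e3]; group
        _ = _ := by rw [map_mul]
    have same : ∀ a ∈ A, f (g * h) * f a * (f (g * h))⁻¹ = f (h * g) * f a * (f (h * g))⁻¹ := by
      intro a ha
      have hmem : ∀ u : G, ⁅u, a⁆ ∈ A := fun u =>
        commutator_le_right ⊤ A (commutator_mem_commutator (mem_top u) ha)
      have hcm : Commute (f ⁅h, a⁆) (f ⁅g, a⁆) := by
        rw [← commutatorElement_eq_one_iff_commute, ← map_commutatorElement, hker]
        exact h1 _ (hmem h) _ (hmem g)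
      rw [act g hg h hh a ha, act h hh g hg a ha, hcm.eq]
      group
    intro a ha
    rw [← hker, map_commutatorElement, commutatorElement_eq_one_iff_commute]
    set b := (h * g)⁻¹ * a * ((h * g)⁻¹)⁻¹ with hb
    have hbA : b ∈ A := hA.conj_mem a ha (h * g)⁻¹
    have e5 := same b hbA
    have e6 : f (h * g) * f b * (f (h * g))⁻¹ = f a := by
      rw [← map_inv, ← map_mul, ← map_mul, hb]; congr 1; group
    rw [e6] at e5
    have e7 : f ⁅g, h⁆ = f (g * h) * (f (h * g))⁻¹ := by
      rw [← map_inv, ← map_mul, commutatorElement_def]; congr 1; group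
    have e8 : f b = (f (h * g))⁻¹ * f a * f (h * g) := by
      rw [← e6]; group
    rw [Commute, SemiconjBy, e7]
    calc f (g * h) * (f (h * g))⁻¹ * f a
        = (f (g * h) * ((f (h * g))⁻¹ * f a * f (h * g)) * (f (g * h))⁻¹) *
            (f (g * h) * (f (h * g))⁻¹) := by group
      _ = (f (g * h) * f b * (f (g * h))⁻¹) * (f (g * h) * (f (h * g))⁻¹) := by rw [e8]
      _ = f a * (f (g * h) * (f (h * g))⁻¹) := by rw [e5]
  · intro g hg A B hS
    obtain ⟨D, hDA, hBD⟩ := main A B hS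
    obtain ⟨hA, hB, hBA, h1, h2, h3⟩ := hS
    set f := QuotientGroup.mk' B with hf
    have hker : ∀ x, f x = 1 ↔ x ∈ B := fun x => QuotientGroup.eq_one_iff x
    intro a ha
    have e1 : Commute (f g) (f ⁅g, a⁆) := by
      rw [← commutatorElement_eq_one_iff_commute, ← map_commutatorElement, hker]
      exact hg D B hBD _ (hg A D hDA a ha)
    have e3 : f g * f a = f ⁅g, a⁆ * f a * f g := by
      rw [← map_mul, ← map_mul, ← map_mul, commutatorElement_def]; congr 1; group
    have e4 : ∀ k : ℕ, f g ^ k * f a = f ⁅g, a⁆ ^ k * f a * f g ^ k := by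
      intro k
      induction k with
      | zero => simp
      | succ k ih =>
        have e5 : f g * f ⁅g, a⁆ ^ k = f ⁅g, a⁆ ^ k * f g := (e1.pow_right k).eq
        calc f g ^ (k + 1) * f a = f g * (f g ^ k * f a) := by rw [pow_succ']; group
          _ = (f g * f ⁅g, a⁆ ^ k) * f a * f g ^ k := by rw [ih]; group
          _ = f ⁅g, a⁆ ^ k * (f g * f a) * f g ^ k := by rw [e5]; group
          _ = f ⁅g, a⁆ ^ k * f ⁅g, a⁆ * f a * (f g * f g ^ k) := by rw [e3]; group
          _ = _ := by rw [pow_succ (f ⁅g, a⁆), pow_succ' (f g)]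
    have hmem : ⁅g, a⁆ ∈ A :=
      commutator_le_right ⊤ A (commutator_mem_commutator (mem_top g) ha)
    have e6 := e4 p
    rw [← map_pow f ⁅g, a⁆, (hker _).2 (h2 _ hmem), one_mul] at e6
    rw [← hker, map_commutatorElement, commutatorElement_eq_one_iff_commute, map_pow]
    exact e6

lemma V_index [Finite G] {p r : ℕ} (hp : p.Prime) (hG : IsPGroup p G)
    (hgen : ∀ N : Subgroup G, N.Normal → Gen r N) (l : ℕ) :
    (V p (2 ^ l) G).index ≤ p ^ (r * l) := by
  induction l with
  | zero =>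
    rw [pow_zero, V_one hp hG, index_top, mul_zero, pow_zero]
  | succ l ih =>
    have hstep := V_step (G := G) (s := 2 ^ l) hp hG
    rw [← two_mul, ← pow_succ'] at hstep
    have h1 : (V p (2 ^ (l + 1)) G).relIndex (V p (2 ^ l) G) ≤ p ^ r :=
      elem_card hp.pos (hgen _ inferInstance) (fun a ha b hb => hstep.1 a ha b hb)
        (fun a ha => hstep.2 a ha)
    have h2 : (V p (2 ^ (l + 1)) G).index ≤
        (V p (2 ^ (l + 1)) G).relIndex (V p (2 ^ l) G) * (V p (2 ^ l) G).index := by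
      have hle : V p (2 ^ (l + 1)) G ≤ V p (2 ^ l) G := by
        intro g hg A B hS
        obtain ⟨a1, a2, a3, a4, a5, a6⟩ := hS
        refine hg A B ⟨a1, a2, a3, a4, a5, a6.trans ?_⟩
        exact Nat.pow_le_pow_right hp.pos (Nat.pow_le_pow_right (by norm_num) (Nat.le_succ l))
      exact (relIndex_mul_index hle).ge
    calc _ ≤ _ := h2
      _ ≤ p ^ r * p ^ (r * l) := Nat.mul_le_mul h1 ih
      _ = p ^ (r * (l + 1)) := by rw [← pow_add]; congr 1; ring

end Pool.Agent.H40P
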