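import Mathlib
import Pool.Agent.H40P.Sec

/-!
# Finite `p`-groups of bounded rank have powerful subgroups of small index
-/

set_option autoImplicit false

namespace Pool.Agent.H40P

open Subgroup
open scoped commutatorElement

variable {G : Type*} [Group G]

lemma mk_one {J : Subgroup G} [J.Normal] {x : G} : QuotientGroup.mk' J x = 1 ↔ x ∈ J :=
  QuotientGroup.eq_one_iff x

lemma mk_comm {J : Subgroup G} [J.Normal] {x y : G} :
    Commute (QuotientGroup.mk' J x) (QuotientGroup.mk' J y) ↔ ⁅x, y⁆ ∈ J := by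
  rw [← commutatorElement_eq_one_iff_commute, ← map_commutatorElement, mk_one]

lemma central_of_card [Finite G] {p : ℕ} (hp : p.Prime) [Group.IsNilpotent G] {T : Subgroup G}
    (hT : T.Normal) (hc : Nat.card T = p) : T ≤ center G := by
  rw [← commutator_top_right_eq_bot_iff_le_center]
  have h1 : ⁅T, (⊤ : Subgroup G)⁆ ≤ T := commutator_le_left T ⊤
  have h2 := card_dvd_of_le h1
  rw [hc] at h2
  rcases (Nat.dvd_prime hp).1 h2 with h3 | h3
  · exact eq_bot_of_card_eq _ h3
  · exfalso
    have h4 : ⁅T, (⊤ : Subgroup G)⁆ = T := eq_of_le_of_card_ge h1 (by rw [h3, hc])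
    have h5 : T ≤ ⊥ := by
      refine nilp_descent ?_
      rw [h4, bot_sup_eq]
    rw [le_bot_iff] at h5
    rw [h5, card_bot] at hc
    exact hp.one_lt.ne hc

/-- A group with a central subgroup of prime index (or a subgroup of this kind) is abelian. -/
lemma comm_of_central_index {p : ℕ} (hp : p.Prime) {Z B : Subgroup G} [Finite G]
    (hZ : Z.Normal) (hidx : Z.relIndex B = p)
    (hcen : ∀ z ∈ Z, ∀ b ∈ B, Commute z b) : ∀ a ∈ B, ∀ b ∈ B, Commute a b := by
  have := Fact.mk hp
  have hZ' : (Z.subgroupOf B).Normal := inferInstance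
  have hcard : Nat.card (B ⧸ Z.subgroupOf B) = p := by
    rw [← index_eq_card]; exact hidx
  have hcyc : IsCyclic (B ⧸ Z.subgroupOf B) := isCyclic_of_prime_card hcard
  have hker : (QuotientGroup.mk' (Z.subgroupOf B)).ker ≤ center B := by
    rw [QuotientGroup.ker_mk']
    intro z hz
    rw [mem_center_iff]
    intro b
    exact Subtype.ext (hcen z hz b b.2).eq.symm
  intro a ha b hb
  have h1 := commutative_of_cyclic_center_quotient (QuotientGroup.mk' (Z.subgroupOf B)) hker
    ⟨a, ha⟩ ⟨b, hb⟩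
  exact congrArg Subtype.val h1

/-- The odd case. -/
lemma V_powerful_odd [Finite G] {p r s : ℕ} (hp : p.Prime) (hG : IsPGroup p G)
    (hgen : Gen r (V p s G)) (hrs : r ≤ s) : ⁅V p s G, V p s G⁆ ≤ powSub (V p s G) p := by
  have hfact := Fact.mk hp
  by_contra hcon
  set W := V p s G with hW
  have hWn : W.Normal := V_normal p s
  set K := powSub W p with hK
  have hKn : K.Normal := powSub_normal W p
  set T := K ⊔ ⁅W, W⁆ with hT
  have hTn : T.Normal := inferInstance
  have hKT : K < T := by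
    refine lt_of_le_of_ne le_sup_left fun h => hcon ?_
    rw [h]; exact le_sup_right
  obtain ⟨J, hJn, hKJ, hJT, hidx⟩ := top_p hp hG hTn hKn hKT
  set f := QuotientGroup.mk' J with hf
  have hsurj : Function.Surjective f := QuotientGroup.mk'_surjective J
  have hQ : IsPGroup p (G ⧸ J) := hG.to_quotient J
  have hnil : Group.IsNilpotent (G ⧸ J) := hQ.isNilpotent
  have hTc : Nat.card (T.map f) = p := by rw [← relIndex_map, hidx]
  have hTm : (T.map f).Normal := hTn.map f hsurj
  have hTcen : T.map f ≤ center (G ⧸ J) := central_of_card hp hTm hTc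
  have hTW : T ≤ W := sup_le (powSub_le W p) (commutator_le_self W)
  set Wb := W.map f with hWb
  have hWbn : Wb.Normal := hWn.map f hsurj
  have hTWb : T.map f ≤ Wb := map_mono hTW
  have hcomT : ∀ a ∈ Wb, ∀ b ∈ Wb, ⁅a, b⁆ ∈ T.map f := by
    rintro _ ⟨a, ha, rfl⟩ _ ⟨b, hb, rfl⟩
    rw [← map_commutatorElement]
    exact mem_map_of_mem f (le_sup_right (a := K) (commutator_mem_commutator ha hb))
  have hpow : ∀ a ∈ Wb, a ^ p = 1 := by
    rintro _ ⟨a, ha, rfl⟩
    rw [← map_pow, hf, mk_one]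
    exact hKJ (pow_mem_powSub ha)
  have hWidx : (T.map f).relIndex Wb ≤ p ^ r := by
    refine elem_card hp.pos ?_ hcomT fun a ha => by rw [hpow a ha]; exact one_mem _
    classical
    obtain ⟨S, hS, hS2⟩ := hgen
    refine ⟨S.image f, Finset.card_image_le.trans hS, ?_⟩
    rw [Finset.coe_image, ← MonoidHom.map_closure, hS2]
  -- the centre of `Wb`
  set Z := Wb ⊓ centralizer (Wb : Set (G ⧸ J)) with hZ
  have hZn : Z.Normal := by
    have h1 : (centralizer (Wb : Set (G ⧸ J))).Normal := inferInstance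
    exact inferInstance
  have hZW : Z ≤ Wb := inf_le_left
  have hTZ : T.map f ≤ Z := by
    refine le_inf hTWb ?_
    exact hTcen.trans (center_le_centralizer _)
  have hnab : ¬ Wb ≤ Z := by
    intro hle
    have h1 : ∀ a ∈ W, ∀ b ∈ W, ⁅a, b⁆ ∈ J := by
      intro a ha b hb
      rw [← mk_comm]
      have h2 := mem_centralizer_iff.1 (mem_inf.1 (hle (mem_map_of_mem f ha))).2
      exact (h2 _ (mem_map_of_mem f hb)).symm
    have h2 : T ≤ J := sup_le hKJ (commutator_le.2 h1)
    rw [relIndex_eq_one.2 h2] at hidx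
    exact hp.one_lt.ne hidx
  have hZlt : Z < Wb := lt_of_le_of_ne hZW fun h => hnab h.ge
  obtain ⟨B, hBn, hZB, hBW, hBidx⟩ := bot_p hp hQ hWbn hZn hZlt
  have hZc : ∀ z ∈ Z, ∀ b ∈ Wb, Commute z b := by
    intro z hz b hb
    have := mem_centralizer_iff.1 hz.2 b hb
    exact this.symm
  have hBab : ∀ a ∈ B, ∀ b ∈ B, Commute a b :=
    comm_of_central_index hp hZn hBidx fun z hz b hb => hZc z hz b (hBW hb)
  have hBne : ¬ Wb ≤ B := by
    intro hle
    apply hnab
    intro a ha
    refine mem_inf.2 ⟨ha, mem_centralizer_iff.2 ?_⟩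
    intro b hb
    exact (hBab b (hle hb) a (hle ha)).eq
  -- the order of `B`
  have hBcard : Nat.card B ≤ p ^ r := by
    have h1 := relIndex_mul_relIndex (T.map f) B Wb (hTZ.trans hZB) hBW
    have h2 : p ≤ B.relIndex Wb := relIndex_ge hp hQ hBne
    have h3 : (⊥ : Subgroup (G ⧸ J)).relIndex (T.map f) * (T.map f).relIndex B =
        (⊥ : Subgroup (G ⧸ J)).relIndex B :=
      relIndex_mul_relIndex ⊥ (T.map f) B bot_le (hTZ.trans hZB)
    rw [relIndex_bot_left, relIndex_bot_left, hTc] at h3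
    rw [← h3]
    calc p * (T.map f).relIndex B = (T.map f).relIndex B * p := mul_comm _ _
      _ ≤ (T.map f).relIndex B * B.relIndex Wb := Nat.mul_le_mul_left _ h2
      _ = (T.map f).relIndex Wb := h1
      _ ≤ p ^ r := hWidx
  -- `B` is a section on which `W` acts trivially
  have hsec : IsSec p s J (B.comap f) := by
    refine ⟨hBn.comap f, hJn, ?_, ?_, ?_, ?_⟩
    · intro x hx
      rw [mem_comap, show f x = 1 from mk_one.2 hx]
      exact one_mem _
    · intro a ha b hb
      rw [← mk_comm]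
      exact hBab _ ha _ hb
    · intro a ha
      rw [← mk_one, map_pow]
      exact hpow _ (hBW ha)
    · rw [relIndex_map, map_comap_mk]
      exact hBcard.trans (Nat.pow_le_pow_right hp.pos hrs)
  have hBZ : B ≤ Z := by
    intro b hb
    refine mem_inf.2 ⟨hBW hb, mem_centralizer_iff.2 ?_⟩
    rintro _ ⟨w, hw, rfl⟩
    obtain ⟨b, rfl⟩ := hsurj b
    have h1 : ⁅w, b⁆ ∈ J := hw _ _ hsec b hb
    exact (mk_comm.2 h1).eq
  rw [relIndex_eq_one.2 hBZ] at hBidx
  exact hp.one_lt.ne hBidx

lemma sq_comm {H : Subgroup G} (K : Subgroup G) [K.Normal] (h : ∀ a ∈ H, a ^ 2 ∈ K) :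
    ∀ a ∈ H, ∀ b ∈ H, ⁅a, b⁆ ∈ K := by
  intro a ha b hb
  have h2 : ∀ x ∈ H, QuotientGroup.mk' K x * QuotientGroup.mk' K x = 1 := by
    intro x hx
    rw [← map_mul, ← pow_two, mk_one]
    exact h x hx
  have h3 : ∀ x ∈ H, (QuotientGroup.mk' K x)⁻¹ = QuotientGroup.mk' K x :=
    fun x hx => inv_eq_of_mul_eq_one_right (h2 x hx)
  rw [← mk_comm, Commute, SemiconjBy]
  have h4 := h3 _ (mul_mem ha hb)
  rw [map_mul, mul_inv_rev, h3 a ha, h3 b hb] at h4
  exact h4.symm

/-- The even case. -/
lemma V_powerful_two [Finite G] {r s : ℕ} (hG : IsPGroup 2 G)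
    (hgen : ∀ N : Subgroup G, N.Normal → Gen r N) (hrs : r ≤ s) :
    ⁅powSub (V 2 s G) 2, powSub (V 2 s G) 2⁆ ≤ powSub (powSub (V 2 s G) 2) 4 := by
  have hfact : Fact (Nat.Prime 2) := ⟨Nat.prime_two⟩
  have hnilG : Group.IsNilpotent G := hG.isNilpotent
  set U := V 2 s G with hU
  have hUn : U.Normal := V_normal 2 s
  set W := powSub U 2 with hW
  have hWn : W.Normal := powSub_normal U 2
  set K := powSub W 4 with hK
  have hKn : K.Normal := powSub_normal W 4
  set L := ⁅W, W⁆ with hL
  have hLn : L.Normal := inferInstance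
  refine nilp_descent ?_
  set J := K ⊔ ⁅L, (⊤ : Subgroup G)⁆ with hJ
  have hJn : J.Normal := inferInstance
  set f := QuotientGroup.mk' J with hf
  have hsurj : Function.Surjective f := QuotientGroup.mk'_surjective J
  have hW4 : ∀ w ∈ W, f w ^ 4 = 1 := by
    intro w hw
    rw [← map_pow, hf, mk_one]
    exact le_sup_left (a := K) (pow_mem_powSub hw)
  have hLc : ∀ x ∈ W, ∀ y ∈ W, ∀ g : G, Commute (f ⁅x, y⁆) (f g) := by
    intro x hx y hy g
    rw [hf, mk_comm]
    exact le_sup_right (a := K)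
      (commutator_mem_commutator (commutator_mem_commutator hx hy) (mem_top g))
  have hLW : L ≤ W := commutator_le_self W
  set N := powSub W 2 with hN
  have hNn : N.Normal := powSub_normal W 2
  -- the image of `N` is elementary abelian
  have hNmap : N.map f = closure {x | ∃ y ∈ W.map f, y ^ 2 = x} := map_powSub f W 2
  have hg1 : ∀ a ∈ {x | ∃ y ∈ W.map f, y ^ 2 = x}, ∀ b ∈ {x | ∃ y ∈ W.map f, y ^ 2 = x},
      Commute a b := by
    rintro _ ⟨_, ⟨x, hx, rfl⟩, rfl⟩ _ ⟨_, ⟨y, hy, rfl⟩, rfl⟩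
    set d := f ⁅x, y⁆ with hd
    have e1 : f x * f y = d * f y * f x := by
      rw [hd, ← map_mul, ← map_mul, ← map_mul, commutatorElement_def]; congr 1; group
    have dx : Commute d (f x) := hLc x hx y hy x
    have dy : Commute d (f y) := hLc x hx y hy y
    have d4 : d ^ 4 = 1 := hW4 _ (hLW (commutator_mem_commutator hx hy))
    -- move
    have e2 : f x * f y ^ 2 = d ^ 2 * f y ^ 2 * f x := by
      calc f x * f y ^ 2 = (f x * f y) * f y := by rw [pow_two]; group
        _ = (d * f y * f x) * f y := by rw [e1]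
        _ = d * f y * (f x * f y) := by group
        _ = d * f y * (d * f y * f x) := by rw [e1]
        _ = d * (f y * d) * f y * f x := by group
        _ = d ^ 2 * f y ^ 2 * f x := by rw [← dy.eq, pow_two, pow_two]; group
    rw [Commute, SemiconjBy]
    calc f x ^ 2 * f y ^ 2 = f x * (f x * f y ^ 2) := by rw [pow_two (f x)]; group
      _ = (f x * d ^ 2) * f y ^ 2 * f x := by rw [e2]; group
      _ = d ^ 2 * (f x * f y ^ 2) * f x := by rw [← (dx.pow_left 2).eq]; group
      _ = d ^ 2 * d ^ 2 * f y ^ 2 * f x ^ 2 := by rw [e2, pow_two (f x)]; group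
      _ = f y ^ 2 * f x ^ 2 := by rw [← pow_add, d4, one_mul]
  have hg2 : ∀ a ∈ {x | ∃ y ∈ W.map f, y ^ 2 = x}, a ^ 2 = 1 := by
    rintro _ ⟨_, ⟨x, hx, rfl⟩, rfl⟩
    rw [← pow_mul]
    exact hW4 x hx
  have hNc : ∀ a ∈ N, ∀ b ∈ N, Commute (f a) (f b) := by
    intro a ha b hb
    have ha' : f a ∈ N.map f := mem_map_of_mem f ha
    have hb' : f b ∈ N.map f := mem_map_of_mem f hb
    rw [hNmap] at ha' hb'
    exact closure_commute hg1 _ ha' _ hb'
  have hN2 : ∀ a ∈ N, f a ^ 2 = 1 := by
    intro a ha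
    have ha' : f a ∈ N.map f := mem_map_of_mem f ha
    rw [hNmap] at ha'
    exact closure_pow_one hg1 hg2 _ ha'
  -- `U` acts trivially on it
  have hNJ : J ≤ N ⊔ J := le_sup_right
  have hmapNJ : (N ⊔ J).map f = N.map f := by
    rw [Subgroup.map_sup]
    have : J.map f = ⊥ := by rw [Subgroup.map_eq_bot_iff, hf, QuotientGroup.ker_mk']
    rw [this, sup_bot_eq]
  have hex : ∀ a ∈ N ⊔ J, ∃ b ∈ N, f b = f a := by
    intro a ha
    have : f a ∈ (N ⊔ J).map f := mem_map_of_mem f ha
    rw [hmapNJ] at this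
    exact this
  have hsec1 : IsSec 2 s J (N ⊔ J) := by
    refine ⟨inferInstance, hJn, hNJ, ?_, ?_, ?_⟩
    · intro a ha b hb
      obtain ⟨a', ha', e1⟩ := hex a ha
      obtain ⟨b', hb', e2⟩ := hex b hb
      have h1 := hNc a' ha' b' hb'
      rw [e1, e2] at h1
      exact mk_comm.1 h1
    · intro a ha
      obtain ⟨a', ha', e1⟩ := hex a ha
      have h1 := hN2 a' ha'
      rw [e1, ← map_pow] at h1
      exact mk_one.1 h1
    · rw [relIndex_map]
      have h1 : Nat.card ((N ⊔ J).map f) ≤ 2 ^ r := by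
        rw [hmapNJ]
        exact card_map_le f (by norm_num) (hgen N hNn) hNc hN2
      exact h1.trans (Nat.pow_le_pow_right (by norm_num) hrs)
  have hUN : ∀ u ∈ U, ∀ a ∈ N, Commute (f u) (f a) := by
    intro u hu a ha
    exact mk_comm.2 (hu _ _ hsec1 a (le_sup_left (a := N) ha))
  -- `U` acts trivially on `W / N`
  have hsqW : ∀ a ∈ W, a ^ 2 ∈ N := fun a ha => pow_mem_powSub ha
  have hsec2 : IsSec 2 s N W := by
    refine ⟨hWn, hNn, powSub_le W 2, sq_comm N hsqW, hsqW, ?_⟩
    exact (elem_card (by norm_num) (hgen W hWn) (sq_comm N hsqW) hsqW).trans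
      (Nat.pow_le_pow_right (by norm_num) hrs)
  -- squares of elements of `U` centralize `W`
  have hfin : ∀ u ∈ U, ∀ x ∈ W, Commute (f u ^ 2) (f x) := by
    intro u hu x hx
    set c := ⁅u, x⁆ with hc
    have hcN : c ∈ N := hu _ _ hsec2 x hx
    have e1 : f u * f x = f c * f x * f u := by
      rw [hc, ← map_mul, ← map_mul, ← map_mul, commutatorElement_def]; congr 1; group
    have e2 := (hUN u hu c hcN).eq
    have e3 : f c * f c = 1 := by rw [← pow_two]; exact hN2 c hcN
    rw [Commute, SemiconjBy]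
    calc f u ^ 2 * f x = f u * (f u * f x) := by rw [pow_two]; group
      _ = (f u * f c) * f x * f u := by rw [e1]; group
      _ = f c * (f u * f x) * f u := by rw [e2]; group
      _ = (f c * f c) * f x * (f u * f u) := by rw [e1]; group
      _ = f x * f u ^ 2 := by rw [e3, one_mul, pow_two]
  rw [hL, commutator_le]
  intro a ha b hb
  rw [← mk_comm]
  have h1 : W ≤ (centralizer {f b}).comap f := by
    rw [hW, powSub_le_iff]
    intro u hu
    rw [mem_comap, map_pow, mem_centralizer_singleton_iff]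
    exact (hfin u hu b hb).eq
  exact mem_centralizer_singleton_iff.1 (h1 ha)

/-- Powerful normal subgroups of small index. -/
theorem exists_powerful [Finite G] {p r l : ℕ} (hp : p.Prime) (hG : IsPGroup p G)
    (hgen : ∀ N : Subgroup G, N.Normal → Gen r N) (hrl : r ≤ 2 ^ l) :
    ∃ W : Subgroup G, W.Normal ∧ W.index ≤ p ^ (r * (l + 1)) ∧
      ⁅W, W⁆ ≤ powSub W (qexp p) := by
  have h1 := V_index hp hG hgen l
  by_cases h2 : p = 2
  · subst h2
    set U := V 2 (2 ^ l) G with hU
    refine ⟨powSub U 2, inferInstance, ?_, V_powerful_two hG hgen hrl⟩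
    have hsq : ∀ a ∈ U, a ^ 2 ∈ powSub U 2 := fun a ha => pow_mem_powSub ha
    have h3 : (powSub U 2).relIndex U ≤ 2 ^ r :=
      elem_card (by norm_num) (hgen U inferInstance) (sq_comm _ hsq) hsq
    rw [← relIndex_mul_index (powSub_le U 2)]
    calc (powSub U 2).relIndex U * U.index ≤ 2 ^ r * 2 ^ (r * l) := Nat.mul_le_mul h3 h1
      _ = 2 ^ (r * (l + 1)) := by rw [← pow_add]; congr 1; ring
  · refine ⟨V p (2 ^ l) G, inferInstance, ?_, ?_⟩
    · refine h1.trans (Nat.pow_le_pow_right hp.pos ?_)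
      exact Nat.mul_le_mul_left _ (Nat.le_succ l)
    · have hq : qexp p = p := by simp [qexp, h2]
      rw [hq]
      exact V_powerful_odd hp hG (hgen _ inferInstance) hrl

lemma conj_subgroup [Finite G] (H : Subgroup G) :
    Nat.card (ConjClasses H) ≤ H.index * Nat.card (ConjClasses G) := by
  have h1 := card_comm_eq_card_conjClasses_mul_card G
  have h2 := card_comm_eq_card_conjClasses_mul_card H
  have h3 : Nat.card { q : H × H // Commute q.1 q.2 } ≤
      Nat.card { q : G × G // Commute q.1 q.2 } := by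
    refine Nat.card_le_card_of_injective
      (fun q => ⟨((q.1.1 : G), (q.1.2 : G)), ?_⟩) ?_
    · have := congrArg (fun z : H => (z : G)) q.2.eq
      exact this
    · rintro ⟨⟨a, b⟩, h⟩ ⟨⟨c, d⟩, h'⟩ hh
      have h4 := congrArg (fun z => (z : { q : G × G // Commute q.1 q.2 }).1) hh
      have h5 : (a : G) = c := congrArg Prod.fst h4
      have h6 : (b : G) = d := congrArg Prod.snd h4
      rw [Subtype.mk.injEq, Prod.mk.injEq]
      exact ⟨Subtype.ext h5, Subtype.ext h6⟩
  rw [h1, h2, ← H.card_mul_index] at h3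
  have h4 : Nat.card (ConjClasses H) * Nat.card H ≤
      (H.index * Nat.card (ConjClasses G)) * Nat.card H := by
    calc _ ≤ _ := h3
      _ = _ := by ring
  exact Nat.le_of_mul_le_mul_right h4 Nat.card_pos

/-- The class number of `p`-groups all of whose normal subgroups have few generators. -/
theorem rank_bound [Finite G] {p n r l : ℕ} (hp : p.Prime) (hn : Nat.card G = p ^ n)
    (hgen : ∀ N : Subgroup G, N.Normal → Gen r N) (hrl : r ≤ 2 ^ l) :
    ∃ e, n ≤ r * (l + 1) + r * e ∧
      p ^ e ≤ 2 * (p ^ (r * (l + 1)) * Nat.card (ConjClasses G)) := by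
  have hG : IsPGroup p G := IsPGroup.of_card hn
  obtain ⟨W, hWn, hWi, hWp⟩ := exists_powerful hp hG hgen hrl
  have hpw : IsPowerful p W := by
    intro x y
    have h1 : (powSub (⊤ : Subgroup W) (qexp p)).map W.subtype = powSub W (qexp p) := by
      rw [map_powSub, ← MonoidHom.range_eq_map, range_subtype]
    have h2 : ((⁅x, y⁆ : W) : G) ∈ powSub W (qexp p) := by
      have : ((⁅x, y⁆ : W) : G) = ⁅(x : G), (y : G)⁆ := rfl
      rw [this]
      exact hWp (commutator_mem_commutator x.2 y.2)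
    rw [← h1] at h2
    obtain ⟨z, hz, hzx⟩ := h2
    have h3 : z = ⁅x, y⁆ := W.subtype_injective hzx
    rw [h3] at hz
    refine closure_mono ?_ hz
    rintro _ ⟨w, _, rfl⟩
    exact ⟨w, rfl⟩
  obtain ⟨e, he1, he2⟩ := powerful_exp hp (hG.to_subgroup W) hpw
  have hidx : (powSub (⊤ : Subgroup W) p).index ≤ p ^ r := by
    have h1 : powSub (⊤ : Subgroup W) p = (powSub W p).subgroupOf W := by
      apply map_injective W.subtype_injective
      rw [map_powSub, ← MonoidHom.range_eq_map, range_subtype, subgroupOf_map_subtype,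
        inf_eq_left.2 (powSub_le W p)]
    rw [h1]
    change (powSub W p).relIndex W ≤ p ^ r
    have hle : powSub W (qexp p) ≤ powSub W p := by
      unfold qexp
      split_ifs with h2
      · rw [powSub_le_iff]
        intro x hx
        have h3 : x ^ 4 = (x ^ 2) ^ 2 := by rw [← pow_mul]
        rw [h3]
        exact (powSub W p).pow_mem (by rw [h2]; exact pow_mem_powSub hx) 2
      · exact le_rfl
    exact elem_card hp.pos (hgen W hWn)
      (fun a ha b hb => hle (hWp (commutator_mem_commutator ha hb)))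
      (fun a ha => pow_mem_powSub ha)
  refine ⟨e, ?_, ?_⟩
  · have h1 : p ^ n ≤ p ^ (r * (l + 1) + r * e) := by
      rw [← hn, ← W.card_mul_index, pow_add, mul_comm]
      refine Nat.mul_le_mul hWi (he1.trans ?_)
      rw [pow_mul]
      exact Nat.pow_le_pow_left hidx e
    exact (Nat.pow_le_pow_iff_right hp.one_lt).1 h1
  · refine he2.trans (Nat.mul_le_mul_left _ ?_)
    exact (conj_subgroup W).trans (Nat.mul_le_mul_right _ hWi)

end Pool.Agent.H40P
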