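import Mathlib
import Pool.Agent.H40P.Rank

/-!
# A sharper bound for powerful groups
-/

set_option autoImplicit false

namespace Pool.Agent.H40P

open Subgroup
open scoped commutatorElement

variable {G : Type*} [Group G]

lemma qexp_le (p : ℕ) (N : Subgroup G) : powSub N (qexp p) ≤ powSub N p := by
  unfold qexp
  split_ifs with h2
  · rw [powSub_le_iff]
    intro x hx
    have h3 : x ^ 4 = (x ^ 2) ^ 2 := by rw [← pow_mul]
    rw [h3]
    exact (powSub N p).pow_mem (by rw [h2]; exact pow_mem_powSub hx) 2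
  · exact le_rfl

/-- The last layer is central, and gives more commuting pairs. -/
lemma last_layer [Finite G] {p : ℕ} (hp : p.Prime) (hG : IsPGroup p G) (h : IsPowerful p G)
    {j : ℕ} (hbot : P p G (j + 1) = ⊥) (hPj : P p G j ≠ ⊥) :
    p ^ j * Nat.card (P p G j) ≤ 2 * Nat.card (ConjClasses G) := by
  have := Fact.mk hp
  have hnil : Group.IsNilpotent G := hG.isNilpotent
  classical
  set K := (phi hp h j).ker with hK
  have hmemK : ∀ x, x ∈ K ↔ x ^ (p ^ j) = 1 := by
    intro x
    rw [hK, MonoidHom.mem_ker, phi_apply, mk_one, hbot, mem_bot]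
  have hKne : K ≠ ⊤ := by
    intro htop
    apply hPj
    rw [eq_bot_iff]
    intro y hy
    obtain ⟨x, hx⟩ := P_surj hp h j hy
    have hx1 : phi hp h j x = 1 := by
      rw [← MonoidHom.mem_ker, ← hK, htop]; exact mem_top x
    rw [hx1] at hx
    have : y ∈ P p G (j + 1) := mk_one.1 hx.symm
    rwa [hbot] at this
  have hKc : 2 * Nat.card K ≤ Nat.card G := by
    rw [← K.card_mul_index, mul_comm]
    refine Nat.mul_le_mul_left _ ?_
    have h1 : K.index ≠ 0 := index_ne_zero_of_finite
    have h2 : K.index ≠ 1 := fun h => hKne (index_eq_one.1 h)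
    omega
  have hord : ∀ x, x ∉ K → orderOf x = p ^ (j + 1) := by
    intro x hx
    refine orderOf_eq_prime_pow (fun h1 => hx ((hmemK x).2 h1)) ?_
    have := P_pow_pow p x 0 (j + 1) (mem_top x)
    rw [zero_add, hbot, mem_bot] at this
    exact this
  have hcen : ∀ z ∈ P p G j, ∀ g : G, Commute g z := by
    intro z hz g
    have h1 : ⁅z, g⁆ ∈ P p G (j + 1) :=
      qexp_le p _ (P_emb hp h j (commutator_mem_commutator hz (mem_top g)))
    rw [hbot, mem_bot, commutatorElement_eq_one_iff_commute] at h1
    exact h1.symm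
  have hzp : ∀ z ∈ P p G j, z ^ p = 1 := by
    intro z hz
    have := P_pow hz
    rwa [hbot, mem_bot] at this
  have hcount : Nat.card {x : G // x ∉ K} * (p ^ j * Nat.card (P p G j)) ≤
      Nat.card { q : G × G // Commute q.1 q.2 } := by
    have e1 : Nat.card ({x : G // x ∉ K} × (Fin (p ^ j) × P p G j)) =
        Nat.card {x : G // x ∉ K} * (p ^ j * Nat.card (P p G j)) := by
      rw [Nat.card_prod, Nat.card_prod, Nat.card_fin]
    rw [← e1]
    refine Nat.card_le_card_of_injective
      (fun q => ⟨((q.1 : G), (q.1 : G) ^ (q.2.1 : ℕ) * (q.2.2 : G)),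
        (Commute.self_pow _ _).mul_right (hcen _ q.2.2.2 _)⟩) ?_
    rintro ⟨⟨x, hx⟩, i, z, hz⟩ ⟨⟨y, hy⟩, k, w, hw⟩ hxy
    have h1 := congrArg Subtype.val hxy
    simp only [Prod.mk.injEq] at h1
    obtain ⟨rfl, h2⟩ := h1
    -- raise to the `p`-th power
    have h3 : x ^ ((i : ℕ) * p) = x ^ ((k : ℕ) * p) := by
      have h4 : (x ^ (i : ℕ) * z) ^ p = (x ^ (k : ℕ) * w) ^ p := congrArg (fun t => t ^ p) h2
      rw [((hcen z hz x).pow_left _).mul_pow, ((hcen w hw x).pow_left _).mul_pow, hzp z hz,
        hzp w hw, mul_one, mul_one, ← pow_mul, ← pow_mul] at h4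
      exact h4
    have h5 : (i : ℕ) * p = (k : ℕ) * p := by
      apply pow_injOn_Iio_orderOf (x := x) _ _ h3
      · rw [hord x hx, Set.mem_Iio, pow_succ]
        exact Nat.mul_lt_mul_of_pos_right i.2 hp.pos
      · rw [hord x hx, Set.mem_Iio, pow_succ]
        exact Nat.mul_lt_mul_of_pos_right k.2 hp.pos
    have h6 : (i : ℕ) = k := Nat.eq_of_mul_eq_mul_right hp.pos h5
    have h7 : i = k := Fin.ext h6
    subst h7
    have h8 : z = w := mul_left_cancel h2
    subst h8
    rfl
  have hcompl : Nat.card {x : G // x ∉ K} + Nat.card K = Nat.card G := by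
    have e1 : Nat.card G = Nat.card {x : G // x ∈ K} + Nat.card {x : G // x ∉ K} := by
      rw [← Nat.card_sum]
      exact Nat.card_congr (Equiv.sumCompl (fun x => x ∈ K)).symm
    rw [e1, add_comm]
  rw [card_comm_eq_card_conjClasses_mul_card] at hcount
  have hG0 : 0 < Nat.card G := Nat.card_pos
  have h7 : Nat.card G ≤ 2 * Nat.card {x : G // x ∉ K} := by omega
  have h8 : Nat.card G * (p ^ j * Nat.card (P p G j)) ≤
      Nat.card G * (2 * Nat.card (ConjClasses G)) := by
    calc Nat.card G * (p ^ j * Nat.card (P p G j)) ≤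
          2 * Nat.card {x : G // x ∉ K} * (p ^ j * Nat.card (P p G j)) :=
          Nat.mul_le_mul_right _ h7
      _ = 2 * (Nat.card {x : G // x ∉ K} * (p ^ j * Nat.card (P p G j))) := by ring
      _ ≤ 2 * (Nat.card (ConjClasses G) * Nat.card G) := Nat.mul_le_mul_left _ hcount
      _ = Nat.card G * (2 * Nat.card (ConjClasses G)) := by ring
  exact Nat.le_of_mul_le_mul_left h8 hG0

lemma P_map {H : Type*} [Group H] (f : G →* H) (hf : Function.Surjective f) (p i : ℕ) :
    (P p G i).map f = P p H i := by
  induction i with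
  | zero => exact map_top_of_surjective f hf
  | succ i ih =>
    change (powSub (P p G i) p).map f = powSub (P p H i) p
    rw [map_powSub, ih]

lemma IsPowerful.map {H : Type*} [Group H] (f : G →* H) (hf : Function.Surjective f) {p : ℕ}
    (h : IsPowerful p G) : IsPowerful p H := by
  intro x y
  obtain ⟨x, rfl⟩ := hf x
  obtain ⟨y, rfl⟩ := hf y
  rw [← map_commutatorElement]
  have h1 := mem_map_of_mem f (h x y)
  rw [MonoidHom.map_closure] at h1
  refine closure_mono ?_ h1
  rintro _ ⟨_, ⟨w, rfl⟩, rfl⟩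
  exact ⟨f w, (map_pow f w _).symm⟩

lemma conj_quot {H : Type*} [Group H] [Finite G] (f : G →* H) (hf : Function.Surjective f) :
    Nat.card (ConjClasses H) ≤ Nat.card (ConjClasses G) := by
  have : Finite (ConjClasses G) := Quotient.finite _
  exact Nat.card_le_card_of_surjective (ConjClasses.map f) (ConjClasses.map_surjective hf)

/-- The layers of a powerful group. -/
lemma layer [Finite G] {p : ℕ} (hp : p.Prime) (hG : IsPGroup p G) (h : IsPowerful p G)
    {j : ℕ} (hPj : ¬ P p G j ≤ P p G (j + 1)) :
    p ^ j * (P p G (j + 1)).relIndex (P p G j) ≤ 2 * Nat.card (ConjClasses G) := by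
  set f := QuotientGroup.mk' (P p G (j + 1)) with hf
  have hsurj : Function.Surjective f := QuotientGroup.mk'_surjective _
  have h1 := last_layer hp (hG.to_quotient (P p G (j + 1))) (IsPowerful.map f hsurj h) (j := j)
    (by
      rw [← P_map f hsurj, Subgroup.map_eq_bot_iff, hf, QuotientGroup.ker_mk'])
    (by
      rw [← P_map f hsurj, Ne, Subgroup.map_eq_bot_iff, hf, QuotientGroup.ker_mk']
      exact hPj)
  rw [relIndex_map, P_map _ hsurj]
  exact h1.trans (Nat.mul_le_mul_left _ (conj_quot f hsurj))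

lemma sum_le_tri (K t : ℕ) : ∑ j ∈ Finset.range t, (K - j) ≤ K * (K + 1) / 2 := by
  have h1 : ∀ t, 2 * ∑ j ∈ Finset.range t, (K - j) ≤ K * (K + 1) ∧
      (t ≤ K → 2 * ∑ j ∈ Finset.range t, (K - j) + (K - t) * (K - t + 1) = K * (K + 1)) := by
    intro t
    induction t with
    | zero => simp
    | succ t ih =>
      rw [Finset.sum_range_succ]
      by_cases ht : t + 1 ≤ K
      · have h2 := ih.2 (by omega)
        obtain ⟨c, rfl⟩ := Nat.exists_eq_add_of_le ht
        have e1 : t + 1 + c - t = c + 1 := by omega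
        have e2 : t + 1 + c - (t + 1) = c := by omega
        rw [e1] at h2 ⊢
        rw [e2]
        constructor
        · nlinarith
        · intro _
          nlinarith
      · by_cases ht2 : t = K
        · subst ht2
          have h2 := ih.2 le_rfl
          simp only [Nat.sub_self] at h2 ⊢
          constructor
          · omega
          · intro h; omega
        · have : K - t = 0 := by omega
          rw [this, add_zero]
          exact ⟨ih.1, fun h => by omega⟩
  have := (h1 t).1
  omega

/-- Powerful groups of order `p ^ m` have `k ≥ p ^ K / 2` with `K (K + 1) ≥ 2 m`. -/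
theorem powerful_sharp [Finite G] {p m : ℕ} (hp : p.Prime) (hm : Nat.card G = p ^ m)
    (h : IsPowerful p G) :
    ∃ K, 2 * m ≤ K * (K + 1) ∧ p ^ K ≤ 2 * Nat.card (ConjClasses G) := by
  have hG : IsPGroup p G := IsPGroup.of_card hm
  have hk0 : 0 < Nat.card (ConjClasses G) := by
    have : Finite (ConjClasses G) := Quotient.finite _
    exact Nat.card_pos
  set K := Nat.log p (2 * Nat.card (ConjClasses G)) with hK
  refine ⟨K, ?_, Nat.pow_log_le_self p (by omega)⟩
  have hrel : ∀ j, (P p G (j + 1)).relIndex (P p G j) ≤ p ^ (K - j) := by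
    intro j
    by_cases hj : P p G j ≤ P p G (j + 1)
    · rw [relIndex_eq_one.2 hj]
      exact Nat.one_le_pow _ _ hp.pos
    · obtain ⟨a, ha⟩ := relIndex_pow hp hG (P p G (j + 1)) (P p G j)
      have h1 := layer hp hG h hj
      rw [ha, ← pow_add] at h1
      have h2 : j + a ≤ K := (Nat.le_log_iff_pow_le hp.one_lt (by omega)).2 h1
      rw [ha]
      exact Nat.pow_le_pow_right hp.pos (by omega)
  have hidx : ∀ t, (P p G t).index ≤ p ^ (∑ j ∈ Finset.range t, (K - j)) := by
    intro t
    induction t with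
    | zero => exact (index_top (G := G)).le
    | succ t ih =>
      rw [← relIndex_mul_index (P_succ_le p t), Finset.sum_range_succ, pow_add, mul_comm]
      exact Nat.mul_le_mul ih (hrel t)
  obtain ⟨e, he⟩ := P_eventually (G := G) hp hG
  have h1 := hidx e
  rw [he, index_bot, hm] at h1
  have h2 := (Nat.pow_le_pow_iff_right hp.one_lt).1 h1
  have h3 := sum_le_tri K e
  omega

end Pool.Agent.H40P
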