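import Mathlib
import Pool.Agent.H40P.Layer

/-!
# Standard groups over finite chain rings
-/

set_option autoImplicit false

namespace Pool.Agent.H40P

open MvPolynomial

/-- `R` is a finite chain ring of length `N` with maximal ideal `t R`. -/
def IsChain (R : Type*) [CommRing R] (t : R) (N : ℕ) : Prop :=
  (∀ a : R, IsUnit a ∨ t ∣ a) ∧ t ^ N = 0 ∧ ∀ i < N, t ^ i ≠ 0

section ring

variable {R : Type*} [CommRing R] {t : R} {N : ℕ}

lemma IsChain.form (h : IsChain R t N) (a : R) : a = 0 ∨ ∃ i < N, ∃ u : Rˣ, a = u * t ^ i := by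
  have key : ∀ k, (t ^ k ∣ a) ∨ ∃ i < k, ∃ u : Rˣ, a = u * t ^ i := by
    intro k
    induction k with
    | zero => left; rw [pow_zero]; exact one_dvd a
    | succ k ih =>
      rcases ih with ⟨b, hb⟩ | ⟨i, hi, u, hu⟩
      · rcases h.1 b with hbu | ⟨c, hc⟩
        · right
          obtain ⟨u, rfl⟩ := hbu
          exact ⟨k, Nat.lt_succ_self k, u, by rw [hb, mul_comm]⟩
        · left
          exact ⟨c, by rw [hb, hc, pow_succ]; ring⟩
      · right
        exact ⟨i, by omega, u, hu⟩
  rcases key N with ⟨b, hb⟩ | hh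
  · left
    rw [hb, h.2.1, zero_mul]
  · right; exact hh

lemma IsChain.not_dvd (h : IsChain R t N) {i j : ℕ} (hij : i < j) (hi : i < N) :
    ¬ t ^ j ∣ t ^ i := by
  rintro ⟨b, hb⟩
  obtain ⟨c, rfl⟩ := Nat.exists_eq_add_of_lt hij
  have h1 : t ^ i * (1 - t * (t ^ c * b)) = 0 := by
    have : t ^ i - t ^ (i + c + 1) * b = 0 := by rw [← hb, sub_self]
    calc t ^ i * (1 - t * (t ^ c * b)) = t ^ i - t ^ (i + c + 1) * b := by ring
      _ = 0 := this
  have h2 : IsUnit (1 - t * (t ^ c * b)) := by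
    have hn : IsNilpotent (t * (t ^ c * b)) := ⟨N, by rw [mul_pow, h.2.1, zero_mul]⟩
    exact hn.isUnit_one_sub
  exact h.2.2 i hi ((IsUnit.mul_left_eq_zero h2).1 h1)

/-- Cancellation. -/
lemma IsChain.cancel (h : IsChain R t N) {a : R} {i s : ℕ} (hi : i + s ≤ N)
    (ha : t ^ (i + s) ∣ a * t ^ i) : t ^ s ∣ a := by
  rcases h.form a with rfl | ⟨k, hk, u, rfl⟩
  · exact dvd_zero _
  · by_cases hks : s ≤ k
    · exact Dvd.dvd.mul_left (pow_dvd_pow t hks) _
    · exfalso
      push Not at hks
      have h1 : t ^ (i + s) ∣ t ^ (k + i) := by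
        have h2 := Dvd.dvd.mul_left ha ((u⁻¹ : Rˣ) : R)
        have h3 : ((u⁻¹ : Rˣ) : R) * (↑u * t ^ k * t ^ i) = t ^ (k + i) := by
          rw [pow_add]
          calc ((u⁻¹ : Rˣ) : R) * (↑u * t ^ k * t ^ i) =
              (((u⁻¹ : Rˣ) : R) * ↑u) * (t ^ k * t ^ i) := by ring
            _ = t ^ k * t ^ i := by rw [Units.inv_mul, one_mul]
        rwa [h3] at h2
      exact h.not_dvd (by omega) (by omega) h1

/-- The ideal `t ^ j R`. -/
def I (t : R) (j : ℕ) : Ideal R := Ideal.span {t ^ j}

lemma mem_I {j : ℕ} {a : R} : a ∈ I t j ↔ t ^ j ∣ a := Ideal.mem_span_singleton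

lemma card_step [Finite R] (h : IsChain R t N) {j : ℕ} (hj : j < N) :
    Nat.card (I t j) = Nat.card (R ⧸ Ideal.span {t}) * Nat.card (I t (j + 1)) := by
  -- the map `R → t ^ j R / t ^ (j+1) R`
  let f : R →+ (I t j) ⧸ ((I t (j + 1)).toAddSubgroup.addSubgroupOf (I t j).toAddSubgroup) :=
    (QuotientAddGroup.mk' _).comp
      ({ toFun := fun a => ⟨t ^ j * a, mem_I.2 (dvd_mul_right _ _)⟩
         map_zero' := by ext; simp
         map_add' := by intro a b; ext; simp [mul_add] } : R →+ (I t j).toAddSubgroup)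
  have hker : f.ker = (Ideal.span {t} : Ideal R).toAddSubgroup := by
    ext a
    have h1 : a ∈ f.ker ↔ t ^ (j + 1) ∣ t ^ j * a := by
      rw [AddMonoidHom.mem_ker]
      constructor
      · intro h2
        have h3 := (QuotientAddGroup.eq_zero_iff _).1 h2
        exact mem_I.1 h3
      · intro h2
        exact (QuotientAddGroup.eq_zero_iff _).2 (mem_I.2 h2)
    rw [h1, Submodule.mem_toAddSubgroup, Ideal.mem_span_singleton]
    constructor
    · intro h2
      have := h.cancel (a := a) (i := j) (s := 1) (by omega) (by rwa [mul_comm a])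
      rwa [pow_one] at this
    · rintro ⟨b, rfl⟩
      exact ⟨b, by ring⟩
  have hsurj : Function.Surjective f := by
    intro y
    obtain ⟨⟨z, hz⟩, rfl⟩ := QuotientAddGroup.mk'_surjective _ y
    obtain ⟨b, hb⟩ := mem_I.1 hz
    refine ⟨b, ?_⟩
    change QuotientAddGroup.mk' _ _ = QuotientAddGroup.mk' _ _
    congr 1
    exact Subtype.ext hb.symm
  have e1 : Nat.card ((I t j) ⧸ ((I t (j + 1)).toAddSubgroup.addSubgroupOf
      (I t j).toAddSubgroup)) = Nat.card (R ⧸ Ideal.span {t}) := by
    have h1 := AddSubgroup.index_ker f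
    rw [AddMonoidHom.range_eq_top.2 hsurj, AddSubgroup.card_top, hker] at h1
    rw [← h1]
    rfl
  have e2 : Nat.card ((I t (j + 1)).toAddSubgroup.addSubgroupOf (I t j).toAddSubgroup) =
      Nat.card (I t (j + 1)) := by
    have hle : (I t (j + 1)).toAddSubgroup ≤ (I t j).toAddSubgroup := by
      intro a ha
      exact mem_I.2 ((pow_dvd_pow t (Nat.le_succ j)).trans (mem_I.1 ha))
    exact Nat.card_congr (AddSubgroup.addSubgroupOfEquivOfLe hle).toEquiv
  have e3 := AddSubgroup.card_eq_card_quotient_mul_card_addSubgroup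
    ((I t (j + 1)).toAddSubgroup.addSubgroupOf (I t j).toAddSubgroup)
  rw [e2] at e3
  rw [← e1]
  exact e3

lemma card_I [Finite R] (h : IsChain R t N) {j : ℕ} (hj : j ≤ N) :
    Nat.card (I t j) = Nat.card (R ⧸ Ideal.span {t}) ^ (N - j) := by
  obtain ⟨c, rfl⟩ := Nat.exists_eq_add_of_le hj
  rw [show j + c - j = c by omega]
  induction c generalizing j with
  | zero =>
    have : I t j = ⊥ := by
      rw [I, Ideal.span_singleton_eq_bot]
      exact h.2.1
    rw [this, pow_zero]
    exact Nat.card_unique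
  | succ c ih =>
    rw [card_step h (by omega), ih (j := j + 1) (by
      have : j + 1 + c = j + (c + 1) := by ring
      rw [this]; exact h) (by omega), pow_succ, mul_comm]

end ring

/-- `Q` is (isomorphic to) the group of points, with coordinates in the maximal ideal `t R`, of
an `r`-dimensional formal group law over the finite chain ring `R` of length `N`: the law is
`F_c(X, Y) = X_c + Y_c + ` (an element of the ideal generated by all products `X_j Y_k`). -/
def IsStandard (R : Type*) [CommRing R] (t : R) (N r : ℕ) (Q : Type*) [Group Q] : Prop :=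
  IsChain R t N ∧ ∃ (e : Q ≃ {v : Fin r → R // ∀ c, t ∣ v c})
    (F : Fin r → MvPolynomial (Fin r ⊕ Fin r) R),
    (∀ c, F c - X (Sum.inl c) - X (Sum.inr c) ∈ Ideal.span (Set.range
      (fun jk : Fin r × Fin r => (X (Sum.inl jk.1) * X (Sum.inr jk.2) :
        MvPolynomial (Fin r ⊕ Fin r) R)))) ∧
    ∀ g h : Q, ∀ c, (e (g * h)).1 c = eval (Sum.elim (e g).1 (e h).1) (F c)

section group

variable {R : Type*} [CommRing R] {t : R} {N : ℕ}

lemma eval_sub_const {σ : Type*} (J : Ideal R) (v : σ → R) (hv : ∀ s, v s ∈ J)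
    (G : MvPolynomial σ R) : eval v G - constantCoeff G ∈ J := by
  induction G using MvPolynomial.induction_on with
  | C a => simp
  | add p q hp hq =>
    rw [map_add, map_add]
    have : eval v p + eval v q - (constantCoeff p + constantCoeff q) =
      (eval v p - constantCoeff p) + (eval v q - constantCoeff q) := by ring
    rw [this]
    exact J.add_mem hp hq
  | mul_X p s hp =>
    rw [map_mul, map_mul, eval_X, constantCoeff_X, mul_zero, sub_zero]
    exact J.mul_mem_left _ (hv s)

/-- The leading terms of the law. -/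
lemma law {r : ℕ} (hN : IsChain R t N) {G : MvPolynomial (Fin r ⊕ Fin r) R} {c : Fin r}
    (hG : G - X (Sum.inl c) - X (Sum.inr c) ∈ Ideal.span (Set.range
      (fun jk : Fin r × Fin r => (X (Sum.inl jk.1) * X (Sum.inr jk.2) :
        MvPolynomial (Fin r ⊕ Fin r) R)))) :
    ∃ γ : Fin r × Fin r → R, ∀ i, N ≤ 3 * i → ∀ x y : Fin r → R, (∀ j, t ^ i ∣ x j) →
      (∀ j, t ^ i ∣ y j) →
      eval (Sum.elim x y) G = x c + y c + ∑ jk, γ jk * (x jk.1 * y jk.2) := by
  obtain ⟨H, hH⟩ := Ideal.mem_span_range_iff_exists_fun.1 hG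
  refine ⟨fun jk => constantCoeff (H jk), ?_⟩
  intro i hi x y hx hy
  have h1 : G = X (Sum.inl c) + X (Sum.inr c) +
      ∑ jk, H jk * (X (Sum.inl jk.1) * X (Sum.inr jk.2)) := by
    rw [hH]; ring
  rw [h1, map_add, map_add, eval_X, eval_X, map_sum, Sum.elim_inl, Sum.elim_inr]
  congr 1
  refine Finset.sum_congr rfl fun jk _ => ?_
  rw [map_mul, map_mul, eval_X, eval_X, Sum.elim_inl, Sum.elim_inr]
  have h2 := eval_sub_const (I t i) (Sum.elim x y) (by
    rintro (s | s)
    · exact mem_I.2 (hx s)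
    · exact mem_I.2 (hy s)) (H jk)
  obtain ⟨a, ha⟩ := mem_I.1 h2
  obtain ⟨b, hb⟩ := hx jk.1
  obtain ⟨d, hd⟩ := hy jk.2
  have h3 : eval (Sum.elim x y) (H jk) = constantCoeff (H jk) + t ^ i * a := by
    rw [← ha]; ring
  rw [h3, hb, hd]
  have h4 : t ^ i * t ^ i * t ^ i = 0 := by
    rw [← pow_add, ← pow_add]
    obtain ⟨k, hk⟩ := Nat.exists_eq_add_of_le hi
    rw [show i + i + i = N + k by omega, pow_add, hN.2.1, zero_mul]
  calc (constantCoeff (H jk) + t ^ i * a) * (t ^ i * b * (t ^ i * d)) =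
      constantCoeff (H jk) * (t ^ i * b * (t ^ i * d)) + (t ^ i * t ^ i * t ^ i) * (a * b * d) := by
        ring
    _ = _ := by rw [h4, zero_mul, add_zero]

/-- The number of vectors with coordinates in an ideal. -/
lemma card_vec {r : ℕ} (J : Ideal R) :
    Nat.card {v : Fin r → R // ∀ c, v c ∈ J} = Nat.card J ^ r := by
  have e : {v : Fin r → R // ∀ c, v c ∈ J} ≃ (Fin r → J) :=
    { toFun := fun v c => ⟨v.1 c, v.2 c⟩
      invFun := fun w => ⟨fun c => (w c : R), fun c => (w c).2⟩
      left_inv := fun v => rfl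
      right_inv := fun w => rfl }
  rw [Nat.card_congr e, Nat.card_fun, Nat.card_fin]

/-- Standard groups have many classes. -/
theorem standard_bound [Finite R] {r : ℕ} {Q : Type*} [Group Q] [Finite Q]
    (hQ : IsStandard R t N r Q) (hr : 0 < r) {i : ℕ} (hi1 : 1 ≤ i) (hi2 : 2 * i ≤ N)
    (hi3 : N ≤ 3 * i) :
    Nat.card Q = Nat.card (R ⧸ Ideal.span {t}) ^ (r * (N - 1)) ∧
    Nat.card (R ⧸ Ideal.span {t}) ^ (r + (N - 2 * i)) ≤ 2 * Nat.card (ConjClasses Q) := by
  classical
  obtain ⟨hN, e, F, hF, hlaw⟩ := hQ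
  set q := Nat.card (R ⧸ Ideal.span {t}) with hq
  have hnt : Nontrivial R := by
    refine ⟨⟨1, 0, ?_⟩⟩
    have := hN.2.2 0 (by omega)
    rwa [pow_zero] at this
  have hq2 : 2 ≤ q := by
    have h1 : (Ideal.span {t} : Ideal R) ≠ ⊤ := by
      intro htop
      rw [Ideal.span_singleton_eq_top] at htop
      exact hN.2.2 1 (by omega) (by
        rw [pow_one]
        have := hN.2.1
        exact absurd ((htop.pow N)) (by rw [this]; exact not_isUnit_zero))
    have : Nontrivial (R ⧸ (Ideal.span {t} : Ideal R)) := Ideal.Quotient.nontrivial_iff.2 h1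
    have : Finite (R ⧸ (Ideal.span {t} : Ideal R)) :=
      Finite.of_surjective _ Ideal.Quotient.mk_surjective
    exact Finite.one_lt_card
  have hcQ : Nat.card Q = q ^ (r * (N - 1)) := by
    rw [Nat.card_congr e]
    have h1 : Nat.card {v : Fin r → R // ∀ c, t ∣ v c} =
        Nat.card {v : Fin r → R // ∀ c, v c ∈ I t 1} := by
      refine Nat.card_congr (Equiv.subtypeEquivRight fun v => ?_)
      simp only [mem_I, pow_one]
    rw [h1, card_vec, card_I hN (by omega), ← pow_mul, mul_comm]
  refine ⟨hcQ, ?_⟩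
  choose γ hγ using fun c => law hN (hF c)
  -- the vectors
  let A := {v : Fin r → R // (∀ c, v c ∈ I t i) ∧ ¬ ∀ c, v c ∈ I t (i + 1)}
  let Z := {v : Fin r → R // ∀ c, v c ∈ I t (N - i)}
  have hdvd : ∀ {a b : ℕ} {x : R}, a ≤ b → x ∈ I t b → x ∈ I t a := by
    intro a b x hab hx
    exact mem_I.2 ((pow_dvd_pow t hab).trans (mem_I.1 hx))
  have ht1 : ∀ {b : ℕ} {x : R}, 1 ≤ b → x ∈ I t b → t ∣ x := by
    intro b x hb hx
    have := mem_I.1 (hdvd hb hx)
    rwa [pow_one] at this
  -- the second element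
  let y : A → (R ⧸ I t (N - 2 * i)) → Z → (Fin r → R) :=
    fun x l z c => (Quotient.out l) * x.1 c + z.1 c
  have hy : ∀ x l z c, y x l z c ∈ I t i := by
    intro x l z c
    exact (I t i).add_mem ((I t i).mul_mem_left _ (x.2.1 c)) (hdvd (by omega) (z.2 c))
  let g1 : A → Q := fun x => e.symm ⟨x.1, fun c => ht1 hi1 (x.2.1 c)⟩
  let g2 : A → (R ⧸ I t (N - 2 * i)) → Z → Q :=
    fun x l z => e.symm ⟨y x l z, fun c => ht1 hi1 (hy x l z c)⟩
  have hcomm : ∀ x l z, Commute (g1 x) (g2 x l z) := by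
    intro x l z
    rw [Commute, SemiconjBy]
    apply e.injective
    apply Subtype.ext
    funext c
    rw [hlaw, hlaw, Equiv.apply_symm_apply, Equiv.apply_symm_apply]
    rw [hγ c i hi3 _ _ (fun j => mem_I.1 (x.2.1 j)) (fun j => mem_I.1 (hy x l z j)),
      hγ c i hi3 _ _ (fun j => mem_I.1 (hy x l z j)) (fun j => mem_I.1 (x.2.1 j))]
    have hz : ∀ j k, x.1 j * z.1 k = 0 := by
      intro j k
      obtain ⟨a, ha⟩ := mem_I.1 (x.2.1 j)
      obtain ⟨b, hb⟩ := mem_I.1 (z.2 k)
      rw [ha, hb]
      calc t ^ i * a * (t ^ (N - i) * b) = t ^ (i + (N - i)) * (a * b) := by ring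
        _ = 0 := by rw [show i + (N - i) = N by omega, hN.2.1, zero_mul]
    have h1 : ∀ jk : Fin r × Fin r, γ c jk * (x.1 jk.1 * y x l z jk.2) =
        γ c jk * (y x l z jk.1 * x.1 jk.2) := by
      intro jk
      have h2 := hz jk.1 jk.2
      have h3 := hz jk.2 jk.1
      change γ c jk * (x.1 jk.1 * ((Quotient.out l) * x.1 jk.2 + z.1 jk.2)) =
        γ c jk * (((Quotient.out l) * x.1 jk.1 + z.1 jk.1) * x.1 jk.2)
      linear_combination γ c jk * h2 - γ c jk * h3
    rw [Finset.sum_congr rfl fun jk _ => h1 jk]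
    ring
  -- injectivity
  have hcount : Nat.card A * (q ^ (N - 2 * i) * q ^ (i * r)) ≤
      Nat.card { u : Q × Q // Commute u.1 u.2 } := by
    have e1 : Nat.card (A × ((R ⧸ I t (N - 2 * i)) × Z)) =
        Nat.card A * (q ^ (N - 2 * i) * q ^ (i * r)) := by
      rw [Nat.card_prod, Nat.card_prod]
      congr 2
      · have h1 := AddSubgroup.card_eq_card_quotient_mul_card_addSubgroup
          (I t (N - 2 * i)).toAddSubgroup
        have h2 : Nat.card R = q ^ N := by
          have := card_I hN (j := 0) (by omega)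
          rw [Nat.sub_zero] at this
          rw [← this]
          have h3 : I t 0 = (⊤ : Ideal R) := by rw [I, pow_zero, Ideal.span_singleton_one]
          rw [h3]
          exact (Nat.card_congr (Equiv.Set.univ R)).symm
        have h3 : Nat.card (I t (N - 2 * i)).toAddSubgroup = q ^ (2 * i) := by
          have := card_I hN (j := N - 2 * i) (by omega)
          rw [show N - (N - 2 * i) = 2 * i by omega] at this
          exact this
        rw [h2, h3] at h1
        have h4 : q ^ N = q ^ (N - 2 * i) * q ^ (2 * i) := by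
          rw [← pow_add]; congr 1; omega
        rw [h4] at h1
        exact (Nat.eq_of_mul_eq_mul_right (pow_pos (by omega) _) h1).symm
      · rw [card_vec, card_I hN (by omega), ← pow_mul]
        congr 2
        omega
    rw [← e1]
    refine Nat.card_le_card_of_injective
      (fun w => ⟨(g1 w.1, g2 w.1 w.2.1 w.2.2), hcomm _ _ _⟩) ?_
    rintro ⟨x, l, z⟩ ⟨x', l', z'⟩ hw
    have h1 := congrArg Subtype.val hw
    simp only [Prod.mk.injEq] at h1
    obtain ⟨h1, h2⟩ := h1
    have h3 : x = x' := by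
      have := congrArg Subtype.val (e.symm.injective h1)
      exact Subtype.ext this
    subst h3
    have h4 : y x l z = y x l' z' := congrArg Subtype.val (e.symm.injective h2)
    have h5 : l = l' := by
      have hx2 := x.2.2
      push Not at hx2
      obtain ⟨c, hc⟩ := hx2
      -- `x c = u t ^ i`
      obtain ⟨b, hb⟩ := mem_I.1 (x.2.1 c)
      have hbu : IsUnit b := by
        rcases hN.1 b with hbu | ⟨d, hd⟩
        · exact hbu
        · exfalso
          apply hc
          exact mem_I.2 ⟨d, by rw [hb, hd]; ring⟩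
      have h6 : Quotient.out l * x.1 c + z.1 c = Quotient.out l' * x.1 c + z'.1 c :=
        congrFun h4 c
      have h7 : t ^ (N - i) ∣ (Quotient.out l - Quotient.out l') * x.1 c := by
        have h8 : (Quotient.out l - Quotient.out l') * x.1 c = z'.1 c - z.1 c := by
          linear_combination h6
        rw [h8]
        exact dvd_sub (mem_I.1 (z'.2 c)) (mem_I.1 (z.2 c))
      have h9 : t ^ (i + (N - 2 * i)) ∣ ((Quotient.out l - Quotient.out l') * b) * t ^ i := by
        rw [show i + (N - 2 * i) = N - i by omega]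
        have : (Quotient.out l - Quotient.out l') * b * t ^ i =
          (Quotient.out l - Quotient.out l') * x.1 c := by rw [hb]; ring
        rw [this]
        exact h7
      have h10 := hN.cancel (by omega) h9
      have h11 : t ^ (N - 2 * i) ∣ Quotient.out l - Quotient.out l' := by
        obtain ⟨ub, rfl⟩ := hbu
        exact (Units.dvd_mul_right).1 h10
      have h12 : Ideal.Quotient.mk (I t (N - 2 * i)) (Quotient.out l) =
          Ideal.Quotient.mk (I t (N - 2 * i)) (Quotient.out l') :=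
        Ideal.Quotient.eq.2 (mem_I.2 h11)
      have h13 : ∀ l : R ⧸ I t (N - 2 * i),
          Ideal.Quotient.mk (I t (N - 2 * i)) (Quotient.out l) = l := fun l => Quotient.out_eq l
      rwa [h13, h13] at h12
    subst h5
    have h6 : z = z' := by
      apply Subtype.ext
      funext c
      have : Quotient.out l * x.1 c + z.1 c = Quotient.out l * x.1 c + z'.1 c := congrFun h4 c
      exact add_left_cancel this
    subst h6
    rfl
  -- the number of `x`
  have hA : q ^ (r * (N - i)) ≤ 2 * Nat.card A := by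
    have h1 : Nat.card {v : Fin r → R // ∀ c, v c ∈ I t i} ≤ Nat.card A +
        Nat.card {v : Fin r → R // ∀ c, v c ∈ I t (i + 1)} := by
      have e1 : Nat.card {v : Fin r → R // ∀ c, v c ∈ I t i} =
          Nat.card {s : {v : Fin r → R // ∀ c, v c ∈ I t i} // ∀ c, s.1 c ∈ I t (i + 1)} +
          Nat.card {s : {v : Fin r → R // ∀ c, v c ∈ I t i} // ¬ ∀ c, s.1 c ∈ I t (i + 1)} := by
        rw [← Nat.card_sum]
        exact Nat.card_congr (Equiv.sumCompl _).symm
      have e2 : Nat.card {s : {v : Fin r → R // ∀ c, v c ∈ I t i} //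
          ¬ ∀ c, s.1 c ∈ I t (i + 1)} = Nat.card A :=
        Nat.card_congr (Equiv.subtypeSubtypeEquivSubtypeInter
          (fun v : Fin r → R => ∀ c, v c ∈ I t i) (fun v => ¬ ∀ c, v c ∈ I t (i + 1)))
      have e3 : Nat.card {s : {v : Fin r → R // ∀ c, v c ∈ I t i} // ∀ c, s.1 c ∈ I t (i + 1)} ≤
          Nat.card {v : Fin r → R // ∀ c, v c ∈ I t (i + 1)} := by
        refine Nat.card_le_card_of_injective (fun s => ⟨s.1.1, s.2⟩) ?_
        intro s s' hs
        have hs' : s.1.1 = s'.1.1 := congrArg (fun z => z.1) hs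
        exact Subtype.ext (Subtype.ext hs')
      rw [e1, e2, add_comm]
      exact Nat.add_le_add_left e3 _
    rw [card_vec, card_vec, card_I hN (by omega), card_I hN (by omega), ← pow_mul, ← pow_mul]
      at h1
    have h2 : 2 * q ^ ((N - (i + 1)) * r) ≤ q ^ ((N - i) * r) := by
      have h3 : (N - i) * r = (N - (i + 1)) * r + r := by
        obtain ⟨c, rfl⟩ := Nat.exists_eq_add_of_le hi2
        rw [show 2 * i + c - i = (i + c - 1) + 1 by omega,
          show 2 * i + c - (i + 1) = i + c - 1 by omega]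
        ring
      rw [h3, pow_add, mul_comm]
      refine Nat.mul_le_mul_left _ ?_
      calc 2 ≤ q := hq2
        _ = q ^ 1 := (pow_one q).symm
        _ ≤ q ^ r := Nat.pow_le_pow_right (by omega) hr
    rw [mul_comm r]
    linarith
  rw [card_comm_eq_card_conjClasses_mul_card, hcQ] at hcount
  have h20 : q ^ (r + (N - 2 * i)) * q ^ (r * (N - 1)) ≤
      (2 * Nat.card (ConjClasses Q)) * q ^ (r * (N - 1)) := by
    calc q ^ (r + (N - 2 * i)) * q ^ (r * (N - 1)) =
          q ^ (r * (N - i)) * (q ^ (N - 2 * i) * q ^ (i * r)) := by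
          rw [← pow_add, ← pow_add, ← pow_add]
          congr 1
          obtain ⟨c, rfl⟩ := Nat.exists_eq_add_of_le hi2
          obtain ⟨d, rfl⟩ := Nat.exists_eq_add_of_le hi1
          rw [show 2 * (1 + d) + c - 1 = 1 + 2 * d + c by omega,
            show 2 * (1 + d) + c - (1 + d) = 1 + d + c by omega,
            show 2 * (1 + d) + c - 2 * (1 + d) = c by omega]
          ring
      _ ≤ (2 * Nat.card A) * (q ^ (N - 2 * i) * q ^ (i * r)) := Nat.mul_le_mul_right _ hA
      _ = 2 * (Nat.card A * (q ^ (N - 2 * i) * q ^ (i * r))) := by ring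
      _ ≤ 2 * (Nat.card (ConjClasses Q) * q ^ (r * (N - 1))) := Nat.mul_le_mul_left _ hcount
      _ = _ := by ring
  exact Nat.le_of_mul_le_mul_right h20 (pow_pos (by omega) _)

end group

end Pool.Agent.H40P
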