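import Mathlib
import Pool.Agent.H40P.Standard

/-!
# Standard groups over finite local rings
-/

set_option autoImplicit false

namespace Pool.Agent.H40P

open MvPolynomial IsLocalRing

/-- `Q` is (isomorphic to) the group of points, with coordinates in the maximal ideal, of an
`r`-dimensional formal group law over the finite local ring `R`: the law is
`F_c(X, Y) = X_c + Y_c + ` (an element of the ideal generated by all products `X_j Y_k`). -/
def IsStd (R : Type*) [CommRing R] [IsLocalRing R] (r : ℕ) (Q : Type*) [Group Q] : Prop :=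
  ∃ (e : Q ≃ {v : Fin r → R // ∀ c, v c ∈ maximalIdeal R})
    (F : Fin r → MvPolynomial (Fin r ⊕ Fin r) R),
    (∀ c, F c - X (Sum.inl c) - X (Sum.inr c) ∈ Ideal.span (Set.range
      (fun jk : Fin r × Fin r => (X (Sum.inl jk.1) * X (Sum.inr jk.2) :
        MvPolynomial (Fin r ⊕ Fin r) R)))) ∧
    ∀ g h : Q, ∀ c, (e (g * h)).1 c = eval (Sum.elim (e g).1 (e h).1) (F c)

section ring

variable {R : Type*} [CommRing R]

/-- The leading terms of the law. -/
lemma law3 {r : ℕ} {G : MvPolynomial (Fin r ⊕ Fin r) R} {c : Fin r}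
    (hG : G - X (Sum.inl c) - X (Sum.inr c) ∈ Ideal.span (Set.range
      (fun jk : Fin r × Fin r => (X (Sum.inl jk.1) * X (Sum.inr jk.2) :
        MvPolynomial (Fin r ⊕ Fin r) R)))) :
    ∃ γ : Fin r × Fin r → R, (∀ a : R, a ^ 3 = 0 → ∀ x y : Fin r → R, (∀ j, a ∣ x j) →
      (∀ j, a ∣ y j) →
      eval (Sum.elim x y) G = x c + y c + ∑ jk, γ jk * (x jk.1 * y jk.2)) ∧
      (∀ x y : Fin r → R, (∀ j k, x j * y k = 0) →
        eval (Sum.elim x y) G = x c + y c) := by
  obtain ⟨H, hH⟩ := Ideal.mem_span_range_iff_exists_fun.1 hG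
  have h1 : G = X (Sum.inl c) + X (Sum.inr c) +
      ∑ jk, H jk * (X (Sum.inl jk.1) * X (Sum.inr jk.2)) := by
    rw [hH]; ring
  refine ⟨fun jk => constantCoeff (H jk), ?_, ?_⟩
  · intro a ha3 x y hx hy
    rw [h1, map_add, map_add, eval_X, eval_X, map_sum, Sum.elim_inl, Sum.elim_inr]
    congr 1
    refine Finset.sum_congr rfl fun jk _ => ?_
    rw [map_mul, map_mul, eval_X, eval_X, Sum.elim_inl, Sum.elim_inr]
    have h2 := eval_sub_const (Ideal.span {a}) (Sum.elim x y) (by
      rintro (s | s)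
      · exact Ideal.mem_span_singleton.2 (hx s)
      · exact Ideal.mem_span_singleton.2 (hy s)) (H jk)
    obtain ⟨u, hu⟩ := Ideal.mem_span_singleton.1 h2
    obtain ⟨b, hb⟩ := hx jk.1
    obtain ⟨d, hd⟩ := hy jk.2
    have h3 : eval (Sum.elim x y) (H jk) = constantCoeff (H jk) + a * u := by
      rw [← hu]; ring
    rw [h3, hb, hd]
    calc (constantCoeff (H jk) + a * u) * (a * b * (a * d)) =
        constantCoeff (H jk) * (a * b * (a * d)) + a ^ 3 * (u * b * d) := by ring
      _ = _ := by rw [ha3, zero_mul, add_zero]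
  · intro x y hxy
    rw [h1, map_add, map_add, eval_X, eval_X, map_sum, Sum.elim_inl, Sum.elim_inr]
    have h2 : ∑ jk, eval (Sum.elim x y) (H jk * (X (Sum.inl jk.1) * X (Sum.inr jk.2))) = 0 := by
      refine Finset.sum_eq_zero fun jk _ => ?_
      rw [map_mul, map_mul, eval_X, eval_X, Sum.elim_inl, Sum.elim_inr, hxy, mul_zero]
    rw [h2, add_zero]

/-- The annihilator of `a`. -/
def Ann (a : R) : Ideal R := LinearMap.ker (LinearMap.mulLeft R a)

lemma mem_Ann {a b : R} : b ∈ Ann a ↔ a * b = 0 := by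
  rw [Ann, LinearMap.mem_ker]; rfl

lemma card_Ann [Finite R] (a : R) :
    Nat.card (Ideal.span {a} : Ideal R) * Nat.card (Ann a) = Nat.card R := by
  set f : R →+ R := AddMonoidHom.mulLeft a with hf
  have h1 := AddSubgroup.index_ker f
  have h2 := AddSubgroup.card_mul_index f.ker
  have e1 : Nat.card f.ker = Nat.card (Ann a) := by
    refine Nat.card_congr (Equiv.subtypeEquivRight fun b => ?_)
    rw [mem_Ann]; rfl
  have e2 : Nat.card f.range = Nat.card (Ideal.span {a} : Ideal R) := by
    refine Nat.card_congr (Equiv.subtypeEquivRight fun b => ?_)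
    rw [Ideal.mem_span_singleton]
    constructor
    · rintro ⟨c, rfl⟩; exact ⟨c, rfl⟩
    · rintro ⟨c, rfl⟩; exact ⟨c, rfl⟩
  rw [← h2, h1, e1, e2, mul_comm]

lemma card_quot_Ann [Finite R] (a : R) :
    Nat.card (R ⧸ Ann a) = Nat.card (Ideal.span {a} : Ideal R) := by
  have h1 := AddSubgroup.card_eq_card_quotient_mul_card_addSubgroup (Ann a).toAddSubgroup
  have h2 := card_Ann a
  have h3 : Nat.card (R ⧸ Ann a) * Nat.card (Ann a) = Nat.card R := h1.symm
  rw [← h3] at h2
  exact (Nat.eq_of_mul_eq_mul_right Nat.card_pos h2).symm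

variable [IsLocalRing R]

lemma Ann_le {a : R} (ha : a ≠ 0) : Ann a ≤ maximalIdeal R := by
  intro b hb
  rw [mem_maximalIdeal, mem_nonunits_iff]
  intro hu
  rw [mem_Ann] at hb
  exact ha ((IsUnit.mul_left_eq_zero hu).1 hb)

lemma card_am [Finite R] {a : R} (ha : a ≠ 0) :
    Nat.card (Ideal.span {a} : Ideal R) = Nat.card (R ⧸ maximalIdeal R) *
      Nat.card (Ideal.span {a} * maximalIdeal R : Ideal R) := by
  set J : Ideal R := Ideal.span {a} * maximalIdeal R with hJ
  have hJle : J ≤ Ideal.span {a} := Ideal.mul_le_left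
  let f : R →+ (Ideal.span {a} : Ideal R) ⧸
      (J.toAddSubgroup.addSubgroupOf (Ideal.span {a} : Ideal R).toAddSubgroup) :=
    (QuotientAddGroup.mk' _).comp
      ({ toFun := fun b => ⟨a * b, Ideal.mem_span_singleton.2 (dvd_mul_right _ _)⟩
         map_zero' := by ext; simp
         map_add' := by intro b c; ext; simp [mul_add] } :
        R →+ (Ideal.span {a} : Ideal R).toAddSubgroup)
  have hker : f.ker = (maximalIdeal R).toAddSubgroup := by
    ext b
    have h1 : b ∈ f.ker ↔ a * b ∈ J := by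
      rw [AddMonoidHom.mem_ker]
      constructor
      · intro h2
        exact (QuotientAddGroup.eq_zero_iff _).1 h2
      · intro h2
        exact (QuotientAddGroup.eq_zero_iff _).2 h2
    rw [h1, Submodule.mem_toAddSubgroup, hJ, Ideal.mem_span_singleton_mul]
    constructor
    · rintro ⟨c, hc, hcb⟩
      have h2 : b - c ∈ Ann a := by rw [mem_Ann, mul_sub, hcb, sub_self]
      have h3 := Ann_le ha h2
      have : b = (b - c) + c := by ring
      rw [this]
      exact (maximalIdeal R).add_mem h3 hc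
    · intro hb
      exact ⟨b, hb, rfl⟩
  have hsurj : Function.Surjective f := by
    intro y
    obtain ⟨⟨z, hz⟩, rfl⟩ := QuotientAddGroup.mk'_surjective _ y
    obtain ⟨b, hb⟩ := Ideal.mem_span_singleton.1 hz
    refine ⟨b, ?_⟩
    change QuotientAddGroup.mk' _ _ = QuotientAddGroup.mk' _ _
    congr 1
    exact Subtype.ext hb.symm
  have e1 : Nat.card ((Ideal.span {a} : Ideal R) ⧸
      (J.toAddSubgroup.addSubgroupOf (Ideal.span {a} : Ideal R).toAddSubgroup)) =
      Nat.card (R ⧸ maximalIdeal R) := by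
    have h1 := AddSubgroup.index_ker f
    rw [AddMonoidHom.range_eq_top.2 hsurj, AddSubgroup.card_top, hker] at h1
    rw [← h1]
    rfl
  have e2 : Nat.card (J.toAddSubgroup.addSubgroupOf (Ideal.span {a} : Ideal R).toAddSubgroup) =
      Nat.card J := Nat.card_congr (AddSubgroup.addSubgroupOfEquivOfLe hJle).toEquiv
  have e3 := AddSubgroup.card_eq_card_quotient_mul_card_addSubgroup
    (J.toAddSubgroup.addSubgroupOf (Ideal.span {a} : Ideal R).toAddSubgroup)
  rw [e2] at e3
  rw [← e1]
  exact e3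

end ring

section group

variable {R : Type*} [CommRing R] [IsLocalRing R]

lemma two_le_q [Finite R] : 2 ≤ Nat.card (R ⧸ maximalIdeal R) := by
  have : Nontrivial (R ⧸ maximalIdeal R) :=
    Ideal.Quotient.nontrivial_iff.2 (maximalIdeal.isMaximal R).ne_top
  have : Finite (R ⧸ maximalIdeal R) := Finite.of_surjective _ Ideal.Quotient.mk_surjective
  exact Finite.one_lt_card

lemma card_std [Finite R] {r : ℕ} {Q : Type*} [Group Q] (hQ : IsStd R r Q) :
    Nat.card Q = Nat.card (maximalIdeal R) ^ r := by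
  obtain ⟨e, -⟩ := hQ
  rw [Nat.card_congr e, card_vec]

/-- Standard groups have many classes. -/
theorem local_bound [Finite R] {r : ℕ} {Q : Type*} [Group Q] [Finite Q]
    (hQ : IsStd R r Q) (hr : 0 < r) {a : R} (ha : a ≠ 0) (ha3 : a ^ 3 = 0) :
    Nat.card (R ⧸ maximalIdeal R) ^ r * Nat.card (Ideal.span {a ^ 2} : Ideal R) ≤
      2 * Nat.card (ConjClasses Q) := by
  classical
  have hcQ := card_std hQ
  obtain ⟨e, F, hF, hlaw⟩ := hQ
  set q := Nat.card (R ⧸ maximalIdeal R) with hq
  have hq2 : 2 ≤ q := two_le_q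
  have ham : a ∈ maximalIdeal R := by
    rw [mem_maximalIdeal, mem_nonunits_iff]
    intro hu
    have := hu.pow 3
    rw [ha3] at this
    exact not_isUnit_zero this
  choose γ hγ hγ0 using fun c => law3 (hF c)
  have hspan : ∀ {b : R}, b ∈ (Ideal.span {a} : Ideal R) → b ∈ maximalIdeal R := fun hb =>
    ((Ideal.span_singleton_le_iff_mem _).2 ham) hb
  -- the vectors
  let A := {v : Fin r → R // (∀ c, v c ∈ (Ideal.span {a} : Ideal R)) ∧
    ¬ ∀ c, v c ∈ (Ideal.span {a} * maximalIdeal R : Ideal R)}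
  let Z := {v : Fin r → R // ∀ c, v c ∈ Ann a}
  have hxz : ∀ (b c : R), b ∈ (Ideal.span {a} : Ideal R) → c ∈ Ann a → b * c = 0 := by
    intro b c hb hc
    obtain ⟨d, rfl⟩ := Ideal.mem_span_singleton.1 hb
    rw [mem_Ann] at hc
    calc a * d * c = (a * c) * d := by ring
      _ = 0 := by rw [hc, zero_mul]
  let g1 : A → Q := fun x => e.symm ⟨x.1, fun c => hspan (x.2.1 c)⟩
  have hlx : ∀ (x : A) (l : R), ∀ c, l * x.1 c ∈ (Ideal.span {a} : Ideal R) := fun x l c =>
    (Ideal.span {a} : Ideal R).mul_mem_left _ (x.2.1 c)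
  let gl : A → R → Q := fun x l => e.symm ⟨fun c => l * x.1 c, fun c => hspan (hlx x l c)⟩
  let gz : Z → Q := fun z => e.symm ⟨z.1, fun c => Ann_le ha (z.2 c)⟩
  have hgg : ∀ (x : A) (l : R) (z : Z) (c : Fin r),
      (e (gl x l * gz z)).1 c = l * x.1 c + z.1 c := by
    intro x l z c
    rw [hlaw, Equiv.apply_symm_apply, Equiv.apply_symm_apply]
    exact hγ0 c _ _ (fun j k => hxz _ _ (hlx x l j) (z.2 k))
  have hc1 : ∀ x l, Commute (g1 x) (gl x l) := by
    intro x l
    rw [Commute, SemiconjBy]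
    apply e.injective
    apply Subtype.ext
    funext c
    rw [hlaw, hlaw, Equiv.apply_symm_apply, Equiv.apply_symm_apply]
    rw [hγ c a ha3 _ _ (fun j => Ideal.mem_span_singleton.1 (x.2.1 j))
        (fun j => Ideal.mem_span_singleton.1 (hlx x l j)),
      hγ c a ha3 _ _ (fun j => Ideal.mem_span_singleton.1 (hlx x l j))
        (fun j => Ideal.mem_span_singleton.1 (x.2.1 j))]
    have h1 : ∀ jk : Fin r × Fin r, γ c jk * (x.1 jk.1 * (l * x.1 jk.2)) =
        γ c jk * (l * x.1 jk.1 * x.1 jk.2) := by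
      intro jk; ring
    rw [Finset.sum_congr rfl fun jk _ => h1 jk]
    ring
  have hc2 : ∀ x z, Commute (g1 x) (gz z) := by
    intro x z
    rw [Commute, SemiconjBy]
    apply e.injective
    apply Subtype.ext
    funext c
    rw [hlaw, hlaw, Equiv.apply_symm_apply, Equiv.apply_symm_apply,
      hγ0 c _ _ (fun j k => hxz _ _ (x.2.1 j) (z.2 k)),
      hγ0 c _ _ (fun j k => by rw [mul_comm]; exact hxz _ _ (x.2.1 k) (z.2 j)), add_comm]
  have hcomm : ∀ x l z, Commute (g1 x) (gl x l * gz z) := fun x l z =>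
    (hc1 x l).mul_right (hc2 x z)
  -- injectivity
  have hcount : Nat.card A * (Nat.card (Ideal.span {a ^ 2} : Ideal R) * Nat.card (Ann a) ^ r) ≤
      Nat.card { u : Q × Q // Commute u.1 u.2 } := by
    have e1 : Nat.card (A × ((R ⧸ Ann (a ^ 2)) × Z)) =
        Nat.card A * (Nat.card (Ideal.span {a ^ 2} : Ideal R) * Nat.card (Ann a) ^ r) := by
      rw [Nat.card_prod, Nat.card_prod, card_quot_Ann, card_vec]
    rw [← e1]
    refine Nat.card_le_card_of_injective
      (fun w => ⟨(g1 w.1, gl w.1 (Quotient.out w.2.1) * gz w.2.2), hcomm _ _ _⟩) ?_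
    rintro ⟨x, l, z⟩ ⟨x', l', z'⟩ hw
    have h1 := congrArg Subtype.val hw
    simp only [Prod.mk.injEq] at h1
    obtain ⟨h1, h2⟩ := h1
    have h3 : x = x' := by
      have := congrArg Subtype.val (e.symm.injective h1)
      exact Subtype.ext this
    subst h3
    have h4 : ∀ c, Quotient.out l * x.1 c + z.1 c = Quotient.out l' * x.1 c + z'.1 c := by
      intro c
      rw [← hgg, ← hgg, h2]
    have h5 : l = l' := by
      have hx2 := x.2.2
      push Not at hx2
      obtain ⟨c, hc⟩ := hx2
      obtain ⟨b, hb⟩ := Ideal.mem_span_singleton.1 (x.2.1 c)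
      have hbu : IsUnit b := by
        by_contra hbn
        apply hc
        rw [hb, Ideal.mem_span_singleton_mul]
        exact ⟨b, (mem_maximalIdeal b).2 hbn, rfl⟩
      have h6 := h4 c
      have h7 : (Quotient.out l - Quotient.out l') * x.1 c ∈ Ann a := by
        have h8 : (Quotient.out l - Quotient.out l') * x.1 c = z'.1 c - z.1 c := by
          linear_combination h6
        rw [h8]
        exact (Ann a).sub_mem (z'.2 c) (z.2 c)
      rw [mem_Ann, hb] at h7
      have h9 : a ^ 2 * (Quotient.out l - Quotient.out l') * b = 0 := by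
        rw [← h7]; ring
      have h10 : Quotient.out l - Quotient.out l' ∈ Ann (a ^ 2) := by
        rw [mem_Ann]
        exact (IsUnit.mul_left_eq_zero hbu).1 h9
      have h12 : Ideal.Quotient.mk (Ann (a ^ 2)) (Quotient.out l) =
          Ideal.Quotient.mk (Ann (a ^ 2)) (Quotient.out l') := Ideal.Quotient.eq.2 h10
      have h13 : ∀ l : R ⧸ Ann (a ^ 2),
          Ideal.Quotient.mk (Ann (a ^ 2)) (Quotient.out l) = l := fun l => Quotient.out_eq l
      rwa [h13, h13] at h12
    subst h5
    have h6 : z = z' := by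
      apply Subtype.ext
      funext c
      exact add_left_cancel (h4 c)
    subst h6
    rfl
  -- the number of `x`
  have hA : Nat.card (Ideal.span {a} : Ideal R) ^ r ≤ 2 * Nat.card A := by
    have h1 : Nat.card {v : Fin r → R // ∀ c, v c ∈ (Ideal.span {a} : Ideal R)} ≤ Nat.card A +
        Nat.card {v : Fin r → R // ∀ c, v c ∈ (Ideal.span {a} * maximalIdeal R : Ideal R)} := by
      have e1 : Nat.card {v : Fin r → R // ∀ c, v c ∈ (Ideal.span {a} : Ideal R)} =
          Nat.card {s : {v : Fin r → R // ∀ c, v c ∈ (Ideal.span {a} : Ideal R)} //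
            ∀ c, s.1 c ∈ (Ideal.span {a} * maximalIdeal R : Ideal R)} +
          Nat.card {s : {v : Fin r → R // ∀ c, v c ∈ (Ideal.span {a} : Ideal R)} //
            ¬ ∀ c, s.1 c ∈ (Ideal.span {a} * maximalIdeal R : Ideal R)} := by
        rw [← Nat.card_sum]
        exact Nat.card_congr (Equiv.sumCompl _).symm
      have e2 : Nat.card {s : {v : Fin r → R // ∀ c, v c ∈ (Ideal.span {a} : Ideal R)} //
          ¬ ∀ c, s.1 c ∈ (Ideal.span {a} * maximalIdeal R : Ideal R)} = Nat.card A :=
        Nat.card_congr (Equiv.subtypeSubtypeEquivSubtypeInter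
          (fun v : Fin r → R => ∀ c, v c ∈ (Ideal.span {a} : Ideal R))
          (fun v => ¬ ∀ c, v c ∈ (Ideal.span {a} * maximalIdeal R : Ideal R)))
      have e3 : Nat.card {s : {v : Fin r → R // ∀ c, v c ∈ (Ideal.span {a} : Ideal R)} //
            ∀ c, s.1 c ∈ (Ideal.span {a} * maximalIdeal R : Ideal R)} ≤
          Nat.card {v : Fin r → R // ∀ c, v c ∈ (Ideal.span {a} * maximalIdeal R : Ideal R)} := by
        refine Nat.card_le_card_of_injective (fun s => ⟨s.1.1, s.2⟩) ?_
        intro s s' hs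
        have hs' : s.1.1 = s'.1.1 := congrArg (fun z => z.1) hs
        exact Subtype.ext (Subtype.ext hs')
      rw [e1, e2, add_comm]
      exact Nat.add_le_add_left e3 _
    rw [card_vec, card_vec] at h1
    have h2 : 2 * Nat.card (Ideal.span {a} * maximalIdeal R : Ideal R) ^ r ≤
        Nat.card (Ideal.span {a} : Ideal R) ^ r := by
      rw [card_am ha, mul_pow]
      refine Nat.mul_le_mul_right _ ?_
      calc 2 ≤ q := hq2
        _ = q ^ 1 := (pow_one q).symm
        _ ≤ q ^ r := Nat.pow_le_pow_right (by omega) hr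
    linarith
  rw [card_comm_eq_card_conjClasses_mul_card, hcQ] at hcount
  have hR : Nat.card R = q * Nat.card (maximalIdeal R) :=
    AddSubgroup.card_eq_card_quotient_mul_card_addSubgroup (maximalIdeal R).toAddSubgroup
  have hm0 : 0 < Nat.card (maximalIdeal R) := Nat.card_pos
  have h20 : (q ^ r * Nat.card (Ideal.span {a ^ 2} : Ideal R)) * Nat.card (maximalIdeal R) ^ r ≤
      (2 * Nat.card (ConjClasses Q)) * Nat.card (maximalIdeal R) ^ r := by
    calc (q ^ r * Nat.card (Ideal.span {a ^ 2} : Ideal R)) * Nat.card (maximalIdeal R) ^ r =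
          (q * Nat.card (maximalIdeal R)) ^ r * Nat.card (Ideal.span {a ^ 2} : Ideal R) := by
          rw [mul_pow]; ring
      _ = Nat.card (Ideal.span {a} : Ideal R) ^ r *
          (Nat.card (Ideal.span {a ^ 2} : Ideal R) * Nat.card (Ann a) ^ r) := by
          rw [← hR, ← card_Ann a, mul_pow]; ring
      _ ≤ (2 * Nat.card A) *
          (Nat.card (Ideal.span {a ^ 2} : Ideal R) * Nat.card (Ann a) ^ r) :=
          Nat.mul_le_mul_right _ hA
      _ = 2 * (Nat.card A *
          (Nat.card (Ideal.span {a ^ 2} : Ideal R) * Nat.card (Ann a) ^ r)) := by ring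
      _ ≤ 2 * (Nat.card (ConjClasses Q) * Nat.card (maximalIdeal R) ^ r) := Nat.mul_le_mul_left _ hcount
      _ = _ := by ring
  exact Nat.le_of_mul_le_mul_right h20 (pow_pos hm0 _)

end group

end Pool.Agent.H40P
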